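import Pool.Agent.DAE.Interface
import Pool.Agent.DAE.R.Compact
import Pool.Agent.H17Dyn.RankBound
import Pool.Agent.H17Dyn.Conv
import Pool.Agent.H17Dyn.Fat

/-!
# Block T, part 1: elementary facts on the cone `J` and on the action of automorphisms

`act_mem_J`, `smul_mem_J`, `continuous_HH` are in `DAE/R/Compact.lean`.
-/

set_option autoImplicit false

namespace Pool.Agent.DAE

open MvPolynomial Pool.Agent.H17Dyn

variable {d : ℕ}

/-- the degree valuation -/
noncomputable def degv (d : ℕ) : Poly d → ℝ := fun P => (P.totalDegree : ℝ)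

/-- the normalised action of an automorphism -/
noncomputable def nact [NeZero d] (φ : Poly d ≃ₐ[ℂ] Poly d) (h : Poly d → ℝ) : Poly d → ℝ :=
  (HH (act φ h))⁻¹ • act φ h

lemma act_pow_act (φ : Poly d ≃ₐ[ℂ] Poly d) (n : ℕ) (h : Poly d → ℝ) :
    act (φ ^ n) (act φ h) = act (φ ^ (n + 1)) h := by
  have h1 : act (φ ^ n) (act φ h) = act (φ * φ ^ n) h := rfl
  rw [h1, pow_succ']

lemma continuous_act (φ : Poly d ≃ₐ[ℂ] Poly d) : Continuous (act φ) :=
  continuous_pi fun P => continuous_apply (φ P)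

private lemma closed_val : IsClosed {h : Poly d → ℝ | IsVal h} := by
  have h1 : {h : Poly d → ℝ | IsVal h} = {h | h 0 = 0} ∩ ({h | ∀ c : ℂ, c ≠ 0 → h (C c) = 0} ∩
      ({h | ∀ P Q : Poly d, P ≠ 0 → Q ≠ 0 → h (P * Q) = h P + h Q} ∩
        {h | ∀ P Q : Poly d, P ≠ 0 → Q ≠ 0 → P + Q ≠ 0 → h (P + Q) ≤ max (h P) (h Q)})) := by
    ext h
    exact ⟨fun H => ⟨H.zero, H.const, H.mul, H.add⟩, fun H => ⟨H.1, H.2.1, H.2.2.1, H.2.2.2⟩⟩
  rw [h1]
  refine (isClosed_eq (continuous_apply _) continuous_const).inter (IsClosed.inter ?_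
    (IsClosed.inter ?_ ?_))
  · simp only [Set.ofPred_forall]
    exact isClosed_iInter fun c => isClosed_iInter fun _ =>
      isClosed_eq (continuous_apply _) continuous_const
  · simp only [Set.ofPred_forall]
    exact isClosed_iInter fun P => isClosed_iInter fun Q => isClosed_iInter fun _ =>
      isClosed_iInter fun _ => isClosed_eq (continuous_apply (P * Q))
        (Continuous.add (f := fun h : Poly d → ℝ => h P) (g := fun h : Poly d → ℝ => h Q)
          (continuous_apply P) (continuous_apply Q))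
  · simp only [Set.ofPred_forall]
    exact isClosed_iInter fun P => isClosed_iInter fun Q => isClosed_iInter fun _ =>
      isClosed_iInter fun _ => isClosed_iInter fun _ => isClosed_le (continuous_apply (P + Q))
        (Continuous.max (f := fun h : Poly d → ℝ => h P) (g := fun h : Poly d → ℝ => h Q)
          (continuous_apply P) (continuous_apply Q))

private lemma closed_fat : IsClosed {h : Poly d → ℝ | IsFat h} := by
  unfold IsFat
  simp only [Set.ofPred_forall]
  exact isClosed_iInter fun P => isClosed_iInter fun _ => isClosed_le (continuous_apply _)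
    (continuous_finsetSum _ fun i _ => continuous_apply _)

lemma isClosed_J (d : ℕ) : IsClosed (J d) := by
  have h1 : J d = {h : Poly d → ℝ | IsVal h} ∩ {h : Poly d → ℝ | IsFat h} := rfl
  rw [h1]
  exact closed_val.inter closed_fat

lemma isClosed_isMono (g : Fin d → Poly d) : IsClosed {h : Poly d → ℝ | IsMono g h} := by
  unfold IsMono
  simp only [Set.ofPred_forall]
  exact isClosed_iInter fun F => isClosed_iInter fun m => isClosed_iInter fun _ =>
    isClosed_le (continuous_finsetSum _ fun i _ => continuous_const.mul (continuous_apply (g i)))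
      (continuous_apply (aeval g F))

section

variable [NeZero d]

lemma HH_le {h : Poly d → ℝ} {c : ℝ} (hc : ∀ i : Fin d, h (X i) ≤ c) : HH h ≤ c :=
  Finset.sup'_le _ _ fun i _ => hc i

lemma le_HH (h : Poly d → ℝ) (i : Fin d) : h (X i) ≤ HH h :=
  Finset.le_sup' (fun i : Fin d => h (X i)) (Finset.mem_univ i)

lemma exists_HH (h : Poly d → ℝ) : ∃ i : Fin d, HH h = h (X i) := by
  obtain ⟨i, -, hi⟩ := Finset.exists_mem_eq_sup' (s := Finset.univ)
    (⟨0, Finset.mem_univ _⟩ : (Finset.univ : Finset (Fin d)).Nonempty) fun i => h (X i)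
  exact ⟨i, hi⟩

lemma HH_mono {h h' : Poly d → ℝ} (hle : ∀ P, h P ≤ h' P) : HH h ≤ HH h' :=
  HH_le fun i => (hle _).trans (le_HH h' i)

lemma HH_smul (h : Poly d → ℝ) {c : ℝ} (hc : 0 ≤ c) : HH (c • h) = c * HH h := by
  apply le_antisymm
  · exact HH_le fun i => mul_le_mul_of_nonneg_left (le_HH h i) hc
  · obtain ⟨i, hi⟩ := exists_HH h
    rw [hi]
    exact le_HH (c • h) i

/-- if `H(h) ≤ 0` then `h = 0` on `J` -/
lemma HH_nonneg {h : Poly d → ℝ} (hh : h ∈ J d) : 0 ≤ HH h := by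
  by_contra h0
  have h1 := eq_zero_of_HH_le hh (not_le.1 h0).le
  rw [h1] at h0
  apply h0
  obtain ⟨i, hi⟩ := exists_HH (0 : Poly d → ℝ)
  rw [hi]
  exact le_rfl

/-- upper bound by the degree: every monomial of `P` has value at most `deg P * H(h)` -/
lemma le_totalDegree_mul_HH {h : Poly d → ℝ} (hh : h ∈ J d) (P : Poly d) :
    h P ≤ P.totalDegree * HH h := by
  rcases (HH_nonneg hh).eq_or_lt with h0 | h0
  · rw [← h0, mul_zero, eq_zero_of_HH_le hh h0.symm.le]
    exact le_rfl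
  · have h1 : (HH h)⁻¹ • h ∈ J d := smul_mem_J hh (inv_nonneg.2 h0.le)
    have h2 : HH ((HH h)⁻¹ • h) = 1 := by
      rw [HH_smul _ (inv_nonneg.2 h0.le), inv_mul_cancel₀ h0.ne']
    have h3 := h1.1.le_totalDegree h2.le P
    rw [Pi.smul_apply, smul_eq_mul, inv_mul_le_iff₀ h0] at h3
    linarith

lemma degv_mem_J1 : degv d ∈ J1 d := by
  refine ⟨⟨⟨?_, ?_, ?_, ?_⟩, ?_⟩, ?_⟩
  · simp [degv]
  · intro c _
    simp [degv]
  · intro P Q hP hQ
    simp only [degv]
    rw [totalDegree_mul_of_isDomain hP hQ]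
    push_cast
    rfl
  · intro P Q _ _ _
    simp only [degv]
    rw [← Nat.cast_max]
    exact_mod_cast totalDegree_add P Q
  · intro P _
    simp only [degv]
    exact_mod_cast totalDegree_jac_le P
  · obtain ⟨i, hi⟩ := exists_HH (degv d)
    rw [hi]
    simp [degv]

lemma HH_act_nonneg (φ : Poly d ≃ₐ[ℂ] Poly d) {h : Poly d → ℝ} (hh : h ∈ J d) :
    0 ≤ HH (act φ h) := HH_nonneg (act_mem_J φ hh)

lemma HH_act_le (φ : Poly d ≃ₐ[ℂ] Poly d) {h : Poly d → ℝ} (hh : h ∈ J d) :
    HH (act φ h) ≤ adeg φ * HH h := by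
  refine HH_le fun i => (le_totalDegree_mul_HH hh (φ (X i))).trans ?_
  refine mul_le_mul_of_nonneg_right ?_ (HH_nonneg hh)
  exact_mod_cast totalDegree_X_le φ i

/-- `x_i = φ (φ⁻¹ x_i)` and the upper bound for `act φ h` -/
lemma HH_le_symm (φ : Poly d ≃ₐ[ℂ] Poly d) {h : Poly d → ℝ} (hh : h ∈ J d) :
    HH h ≤ adeg φ.symm * HH (act φ h) := by
  have h1 : act φ.symm (act φ h) = h := by
    funext P
    simp [act]
  have h2 := HH_act_le φ.symm (act_mem_J φ hh)
  rwa [h1] at h2

lemma HH_act_pos (φ : Poly d ≃ₐ[ℂ] Poly d) {h : Poly d → ℝ} (hh : h ∈ J1 d) :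
    0 < HH (act φ h) := by
  rcases (HH_act_nonneg φ hh.1).eq_or_lt with h0 | h0
  · have h1 := HH_le_symm φ hh.1
    rw [← h0, mul_zero, hh.2] at h1
    linarith
  · exact h0

lemma nact_mem_J1 (φ : Poly d ≃ₐ[ℂ] Poly d) {h : Poly d → ℝ} (hh : h ∈ J1 d) :
    nact φ h ∈ J1 d := by
  have h0 := HH_act_pos φ hh
  refine ⟨smul_mem_J (act_mem_J φ hh.1) (inv_nonneg.2 h0.le), ?_⟩
  rw [nact, HH_smul _ (inv_nonneg.2 h0.le), inv_mul_cancel₀ h0.ne']

lemma continuousOn_nact (φ : Poly d ≃ₐ[ℂ] Poly d) : ContinuousOn (nact φ) (J1 d) := by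
  have h1 : ContinuousOn (fun h : Poly d → ℝ => (HH (act φ h))⁻¹) (J1 d) :=
    (continuous_HH.comp (continuous_act φ)).continuousOn.inv₀ fun h hh => (HH_act_pos φ hh).ne'
  exact h1.smul (continuous_act φ).continuousOn

/-- the degree is the biggest element of `J_1` -/
lemma le_degv {h : Poly d → ℝ} (hh : h ∈ J1 d) (P : Poly d) : h P ≤ degv d P :=
  hh.1.1.le_totalDegree hh.2.le P

lemma eq_degv {h : Poly d → ℝ} (hh : h ∈ J1 d) (h1 : ∀ P, degv d P ≤ h P) : h = degv d :=
  funext fun P => le_antisymm (le_degv hh P) (h1 P)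

end

end Pool.Agent.DAE
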