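import Mathlib

/-!
# Block T, part 3: sign cells of finitely many affine functions

No valuations here. `cell l x` is the closed cell of the point `x` with respect to the finite
family `l` of affine functions.
-/

set_option autoImplicit false

namespace Pool.Agent.DAE

/-- the closed cell of `x` -/
def cell {E : Type*} [AddCommGroup E] [Module ℝ E] {J : Type*} (l : J → (E →ᵃ[ℝ] ℝ)) (x : E) :
    Set E :=
  {y | ∀ j, (0 < l j x → 0 ≤ l j y) ∧ (l j x < 0 → l j y ≤ 0) ∧ (l j x = 0 → l j y = 0)}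

section General

variable {E : Type*} [AddCommGroup E] [Module ℝ E] {J : Type*} (l : J → (E →ᵃ[ℝ] ℝ))

lemma mem_cell_self (x : E) : x ∈ cell l x :=
  fun _ => ⟨le_of_lt, le_of_lt, id⟩

lemma cell_subset {x y : E} (hy : y ∈ cell l x) : cell l y ⊆ cell l x := by
  intro z hz j
  obtain ⟨h1, h2, h3⟩ := hy j
  obtain ⟨h4, h5, h6⟩ := hz j
  refine ⟨fun h => ?_, fun h => ?_, fun h => h6 (h3 h)⟩
  · rcases (h1 h).lt_or_eq with h7 | h7
    · exact h4 h7
    · exact (h6 h7.symm).ge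
  · rcases (h2 h).lt_or_eq with h7 | h7
    · exact h5 h7
    · exact (h6 h7).le

lemma convex_cell (x : E) : Convex ℝ (cell l x) := by
  intro y hy z hz a b ha hb hab j
  obtain ⟨h1, h2, h3⟩ := hy j
  obtain ⟨h4, h5, h6⟩ := hz j
  have h7 : l j (a • y + b • z) = a * l j y + b * l j z := Convex.combo_affine_apply hab
  rw [h7]
  refine ⟨fun h => add_nonneg (mul_nonneg ha (h1 h)) (mul_nonneg hb (h4 h)), fun h => ?_,
    fun h => ?_⟩
  · exact add_nonpos (mul_nonpos_of_nonneg_of_nonpos ha (h2 h))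
      (mul_nonpos_of_nonneg_of_nonpos hb (h5 h))
  · rw [h3 h, h6 h, mul_zero, mul_zero, add_zero]

/-- the cell with given signs -/
private def cellS (s : J → SignType) : Set E :=
  {y | ∀ j, (s j = 1 → 0 ≤ l j y) ∧ (s j = -1 → l j y ≤ 0) ∧ (s j = 0 → l j y = 0)}

private lemma cells_range : Set.range (cell l) ⊆ Set.range (cellS l) := by
  rintro _ ⟨x, rfl⟩
  refine ⟨fun j => SignType.sign (l j x), ?_⟩
  ext y
  simp only [cellS, cell, Set.mem_ofPred_eq, sign_eq_one_iff, sign_eq_neg_one_iff,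
    sign_eq_zero_iff]

/-- only finitely many cells: the cell depends on the signs of the numbers `l j x` -/
lemma finite_cells [Finite J] : (Set.range (cell l)).Finite :=
  (Set.finite_range (cellS l)).subset (cells_range l)

/-- the number of cells -/
lemma ncard_cells_le [Finite J] : (Set.range (cell l)).ncard ≤ 3 ^ Nat.card J := by
  refine (Set.ncard_le_ncard (cells_range l) (Set.finite_range _)).trans ?_
  rw [← Set.image_univ]
  refine (Set.ncard_image_le Set.finite_univ).trans ?_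
  have h : Nat.card SignType = 3 := by
    rw [Nat.card_eq_fintype_card]
    rfl
  rw [Set.ncard_univ, Nat.card_fun, h]

end General

lemma isClosed_cell {ι : Type*} [Fintype ι] {J : Type*} (l : J → ((ι → ℝ) →ᵃ[ℝ] ℝ))
    (x : ι → ℝ) : IsClosed (cell l x) := by
  have hc : ∀ j, Continuous (l j) := fun j => (l j).continuous_of_finiteDimensional
  have h : ∀ (p : Prop) (s : Set (ι → ℝ)), IsClosed s → IsClosed {y | p → y ∈ s} := by
    intro p s hs
    by_cases hp : p
    · simpa [hp] using hs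
    · simp [hp]
  have h1 : cell l x = ⋂ j, ({y | 0 < l j x → y ∈ {y | 0 ≤ l j y}} ∩
      ({y | l j x < 0 → y ∈ {y | l j y ≤ 0}} ∩ {y | l j x = 0 → y ∈ {y | l j y = 0}})) := by
    ext y
    simp only [cell, Set.mem_ofPred_eq, Set.mem_iInter, Set.mem_inter_iff]
  rw [h1]
  exact isClosed_iInter fun j => (h _ _ (isClosed_le continuous_const (hc j))).inter
    ((h _ _ (isClosed_le (hc j) continuous_const)).inter
      (h _ _ (isClosed_eq (hc j) continuous_const)))

/-- the function `x ↦ x c - t` -/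
private def cellsF {ι : Type*} (c : ι) (t : ℝ) : (ι → ℝ) →ᵃ[ℝ] ℝ where
  toFun x := x c - t
  linear := LinearMap.proj c
  map_vadd' x v := by
    show v c + x c - t = v c + (x c - t)
    ring

/-- **small cells adapted to a polyhedron.** Let `K` be the union of the polyhedra
`{x | ∀ k, 0 ≤ a i k x}`, and bounded. Then there are finitely many affine functions `l` such that
the cell of every `x ∈ K` is contained in one of the polyhedra which contain `x` and has diameter
at most `μ`.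

PROOF. `l` consists of all the `a i k` and of the functions `x ↦ x c - m μ` where `c` is a
coordinate and `m` is an integer with `|m| ≤ R/μ + 1`, `K ⊆ [-R, R]^ι`. If `x ∈ K`, say
`0 ≤ a i k x` for all `k`, and `y ∈ cell l x`, then `0 ≤ a i k y`. Let `m = ⌊x c / μ⌋`; then
`m μ ≤ x c < (m + 1) μ`, so `m μ ≤ y c ≤ (m + 1) μ`, so `|y c - x c| ≤ μ`. -/
theorem exists_cells {ι : Type*} [Fintype ι] {α β : Type*} [Finite α] [Finite β]
    (a : α → β → ((ι → ℝ) →ᵃ[ℝ] ℝ)) {K : Set (ι → ℝ)} (hK : IsCompact K)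
    (hKa : K = ⋃ i, {x | ∀ k, 0 ≤ a i k x}) {μ : ℝ} (hμ : 0 < μ) :
    ∃ (q : ℕ) (l : Fin q → ((ι → ℝ) →ᵃ[ℝ] ℝ)), ∀ x ∈ K,
      (∃ i, cell l x ⊆ {y | ∀ k, 0 ≤ a i k y}) ∧ ∀ y ∈ cell l x, dist y x ≤ μ := by
  obtain ⟨R, hR⟩ := hK.isBounded.exists_norm_le
  let M : ℤ := ⌈R / μ⌉ + 1
  let J : Type _ := (α × β) ⊕ (ι × ↥(Set.Icc (-M) M))
  have : Finite J := inferInstance
  let l : J → ((ι → ℝ) →ᵃ[ℝ] ℝ) :=
    Sum.elim (fun p => a p.1 p.2) (fun p => cellsF p.1 ((p.2 : ℤ) * μ))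
  obtain ⟨q, ⟨e⟩⟩ := Finite.exists_equiv_fin J
  refine ⟨q, fun r => l (e.symm r), fun x hx => ?_⟩
  have hcell : ∀ y ∈ cell (fun r => l (e.symm r)) x, ∀ j,
      (0 < l j x → 0 ≤ l j y) ∧ (l j x < 0 → l j y ≤ 0) ∧ (l j x = 0 → l j y = 0) := by
    intro y hy j
    have h := hy (e j)
    simp only [Equiv.symm_apply_apply] at h
    exact h
  have hnn : ∀ y ∈ cell (fun r => l (e.symm r)) x, ∀ j, 0 ≤ l j x → 0 ≤ l j y := by
    intro y hy j h
    rcases h.lt_or_eq with h1 | h1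
    · exact (hcell y hy j).1 h1
    · exact ((hcell y hy j).2.2 h1.symm).ge
  constructor
  · have hx' := hx
    rw [hKa, Set.mem_iUnion] at hx'
    obtain ⟨i, hi⟩ := hx'
    exact ⟨i, fun y hy k => hnn y hy (Sum.inl (i, k)) (hi k)⟩
  · intro y hy
    refine (dist_pi_le_iff hμ.le).2 fun c => ?_
    have h1 : |x c| ≤ R := (norm_le_pi_norm x c).trans (hR x hx)
    have h2 : |x c / μ| ≤ R / μ := by
      rw [abs_div, abs_of_pos hμ]
      exact div_le_div_of_nonneg_right h1 hμ.le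
    obtain ⟨h3, h4⟩ := abs_le.1 h2
    have h5 := Int.le_ceil (R / μ)
    have h6 := Int.floor_le (x c / μ)
    have h7 := Int.lt_floor_add_one (x c / μ)
    set m : ℤ := ⌊x c / μ⌋ with hm
    have h8 : m ≤ ⌈R / μ⌉ := by
      have : (m : ℝ) ≤ (⌈R / μ⌉ : ℤ) := by linarith
      exact_mod_cast this
    have h9 : -(⌈R / μ⌉ + 1) < m + 1 := by
      have : ((-(⌈R / μ⌉ + 1) : ℤ) : ℝ) < ((m + 1 : ℤ) : ℝ) := by
        push_cast
        linarith
      exact_mod_cast this
    have h10 : m ∈ Set.Icc (-M) M := ⟨by omega, by omega⟩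
    have h11 : m + 1 ∈ Set.Icc (-M) M := ⟨by omega, by omega⟩
    have h12 : (m : ℝ) * μ ≤ x c := (le_div_iff₀ hμ).1 h6
    have h13 : x c < ((m : ℝ) + 1) * μ := (div_lt_iff₀ hμ).1 h7
    have h14 : 0 ≤ y c - ((m : ℤ) : ℝ) * μ :=
      hnn y hy (Sum.inr (c, ⟨m, h10⟩)) (sub_nonneg.2 h12)
    have h15 : y c - ((m + 1 : ℤ) : ℝ) * μ ≤ 0 := by
      refine (hcell y hy (Sum.inr (c, ⟨m + 1, h11⟩))).2.1 ?_
      show x c - ((m + 1 : ℤ) : ℝ) * μ < 0
      push_cast
      linarith
    push_cast at h15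
    rw [Real.dist_eq, abs_le]
    constructor <;> linarith

end Pool.Agent.DAE
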