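import Pool.Agent.DAE.T.Basic

/-!
# Block T, part 1b: the first dynamical degree
-/

set_option autoImplicit false

namespace Pool.Agent.DAE

open MvPolynomial Pool.Agent.H17Dyn

variable {d : ℕ} [NeZero d]

/-- `lam ^ n ≤ deg φ^n` (uniqueness of the limit and `exists_dyn`) -/
lemma IsDyn.pow_le {φ : Poly d ≃ₐ[ℂ] Poly d} {lam : ℝ} (hlam : IsDyn φ lam) (n : ℕ) :
    lam ^ n ≤ (adeg (φ ^ n) : ℝ) := by
  obtain ⟨lam', -, h2, h3⟩ := exists_dyn φ
  have h4 : lam = lam' := tendsto_nhds_unique hlam h2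
  rw [h4]
  exact h3 n

/-- `deg φ^n ≤ C t ^ n` for every `t > lam` -/
lemma IsDyn.exists_le {φ : Poly d ≃ₐ[ℂ] Poly d} {lam : ℝ} (hlam : IsDyn φ lam) (h0 : 0 < lam)
    {t : ℝ} (ht : lam < t) : ∃ C : ℝ, 0 < C ∧ ∀ n, (adeg (φ ^ n) : ℝ) ≤ C * t ^ n := by
  have ht0 : 0 < t := h0.trans ht
  have h1 : ∀ᶠ n : ℕ in Filter.atTop, ((adeg (φ ^ n) : ℕ) : ℝ) ^ ((1 : ℝ) / (n : ℝ)) < t :=
    Filter.Tendsto.eventually_lt_const ht hlam
  obtain ⟨N, hN⟩ := Filter.eventually_atTop.1 h1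
  have h2 : ∀ n, N ≤ n → 0 < n → (adeg (φ ^ n) : ℝ) ≤ t ^ n := by
    intro n hn hn0
    have h3 := (hN n hn).le
    have h4 : (0 : ℝ) ≤ (adeg (φ ^ n) : ℝ) := Nat.cast_nonneg _
    have h5 : (0 : ℝ) < n := by exact_mod_cast hn0
    have h6 := Real.rpow_le_rpow (Real.rpow_nonneg h4 _) h3 h5.le
    rwa [← Real.rpow_mul h4, one_div, inv_mul_cancel₀ h5.ne', Real.rpow_one, Real.rpow_natCast]
      at h6
  set S : ℝ := ∑ n ∈ Finset.range (N + 1), (adeg (φ ^ n) : ℝ) / t ^ n with hS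
  have hS0 : 0 ≤ S := Finset.sum_nonneg fun n _ => by positivity
  refine ⟨1 + S, by linarith, fun n => ?_⟩
  rcases lt_or_ge n (N + 1) with hn | hn
  · have h3 : (adeg (φ ^ n) : ℝ) / t ^ n ≤ S :=
      Finset.single_le_sum (f := fun n => (adeg (φ ^ n) : ℝ) / t ^ n)
        (fun m _ => by positivity) (Finset.mem_range.2 hn)
    rw [div_le_iff₀ (by positivity)] at h3
    have h4 : (0 : ℝ) ≤ t ^ n := by positivity
    nlinarith
  · have h3 := h2 n (by omega) (by omega)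
    have h4 : (0 : ℝ) ≤ t ^ n := by positivity
    nlinarith

/-- the multiplier of an eigenvaluation is at most `lam`: `θ^n = H(f^n_* W) ≤ deg φ^n` -/
lemma IsDyn.eigen_le {φ : Poly d ≃ₐ[ℂ] Poly d} {lam : ℝ} (hlam : IsDyn φ lam)
    {W : Poly d → ℝ} (hW : W ∈ J1 d) {θ : ℝ} (hθ : 0 ≤ θ) (hφ : ∀ P, W (φ P) = θ * W P) :
    θ ≤ lam := by
  have h1 : ∀ (n : ℕ) (P : Poly d), W ((φ ^ n) P) = θ ^ n * W P := by
    intro n
    induction n with
    | zero => intro P; simp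
    | succ n ih =>
      intro P
      rw [pow_succ', AlgEquiv.mul_apply, hφ, ih, pow_succ']
      ring
  have h2 : ∀ n : ℕ, θ ^ n ≤ (adeg (φ ^ n) : ℝ) := by
    intro n
    have h3 := HH_act_le (φ ^ n) hW.1
    have h4 : act (φ ^ n) W = (θ ^ n) • W := by
      funext P
      exact h1 n P
    rw [h4, HH_smul _ (pow_nonneg hθ n), hW.2, mul_one, mul_one] at h3
    exact h3
  refine ge_of_tendsto hlam ?_
  filter_upwards [Filter.eventually_gt_atTop 0] with n hn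
  have h5 : (0 : ℝ) < n := by exact_mod_cast hn
  have h6 := Real.rpow_le_rpow (pow_nonneg hθ n) (h2 n) (one_div_nonneg.2 h5.le)
  rwa [← Real.rpow_natCast θ n, ← Real.rpow_mul hθ, mul_one_div_cancel h5.ne', Real.rpow_one]
    at h6

end Pool.Agent.DAE
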