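import Pool.Agent.DAE.T.Pieces
import Pool.Agent.Brouwer.Contract
import Pool.Agent.Brouwer.Cube
import Pool.Agent.Brouwer.Convex

/-!
# Block T, part 8: the fixed point property of `Σ_g`
-/

set_option autoImplicit false

namespace Pool.Agent.DAE

open MvPolynomial Pool.Agent.H17Dyn

variable {d : ℕ} [NeZero d]

/-- the data and properties of the retraction `R_g` (without the finite set `D0`) -/
structure Retr (g : Fin d → Poly d) (R : (Poly d → ℝ) → (Poly d → ℝ)) : Prop where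
  cont : ContinuousOn R (J1 d)
  mem : ∀ h ∈ J1 d, R h ∈ Sig1 g
  le : ∀ h ∈ J1 d, ∀ P, h P ≤ R h P
  id : ∀ h ∈ Sig1 g, R h = h

/-- the data and properties of the coordinate noise -/
structure Noise (d : ℕ) [NeZero d] (N : ℝ → (Poly d → ℝ) → (Poly d → ℝ)) : Prop where
  cont : ContinuousOn (fun p : ℝ × (Poly d → ℝ) => N p.1 p.2)
    (Set.Icc (-((d : ℝ) - 1)) 1 ×ˢ J1 d)
  mem : ∀ s ∈ Set.Icc (-((d : ℝ) - 1)) 1, ∀ h ∈ J1 d, N s h ∈ J1 d
  le : ∀ s ∈ Set.Icc (-((d : ℝ) - 1)) 1, ∀ h ∈ J1 d, ∀ P, h P ≤ N s h P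
  id : ∀ h ∈ J1 d, N (-((d : ℝ) - 1)) h = h
  one : ∀ h ∈ J1 d, N 1 h = degv d

lemma exists_noise (hN : NoiseStatement d) : ∃ N, Noise d N := by
  obtain ⟨N, h1, h2, h3, h4, -⟩ := hN
  exact ⟨N, h1, fun s hs h hh => (h2 s hs h hh).1, fun s hs h hh => (h2 s hs h hh).2, h3, h4⟩

/-- `R_g` fixes the degree, the biggest element of `J_1` (`degv_mem_J1`, `eq_degv`) -/
lemma Retr.degv_mem {g : Fin d → Poly d} {R : (Poly d → ℝ) → (Poly d → ℝ)} (hR : Retr g R) :
    degv d ∈ Sig1 g ∧ R (degv d) = degv d := by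
  have h1 := hR.mem (degv d) degv_mem_J1
  have h2 : R (degv d) = degv d := eq_degv h1.1 (hR.le (degv d) degv_mem_J1)
  exact ⟨h2 ▸ h1, h2⟩

/-- **the fixed point theorem for `K = ev D '' Σ_g`.** PROOF. `K` is the union of the compact
convex sets `{x | ∀ k, 0 ≤ p.a i k x}` (closed subsets of `K`). Contraction of `K`:
`H x τ = ev D (R (N (-(d-1) + τ d) (s x)))`, `H x 0 = x` (`Noise.id`, `Retr.id`, `left_inv`),
`H x 1 = ev D (degv d)` (`Noise.one`, `Retr.degv_mem`). So `K` is a retract of the space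
(`Brouwer.retract_of_contractible`); `K ⊆ [-B, B]^D`, so `F ∘ r` maps this cube to itself and has
a fixed point by the theorem of Brouwer (`Brouwer.brouwer_cube` after an affine change of
coordinates, or `brouwer_convex` of `Pool/Agent/Brouwer/Convex.lean` if this file is there). -/
theorem exists_fixed (hC : CompactStatement d) {N : ℝ → (Poly d → ℝ) → (Poly d → ℝ)}
    (hN : Noise d N) {g : Fin d → Poly d} {R : (Poly d → ℝ) → (Poly d → ℝ)} (hR : Retr g R)
    (p : Pieces g) (F : (p.D → ℝ) → (p.D → ℝ)) (hF : ContinuousOn F p.K)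
    (hm : Set.MapsTo F p.K p.K) : ∃ x ∈ p.K, F x = x := by
  have := p.finα
  have := p.finβ
  have hK : p.K = ⋃ i, {x | ∀ k, 0 ≤ p.a i k x} := p.image
  have hJ : ∀ x ∈ p.K, p.s x ∈ J1 d := fun x hx => (p.s_mem hx).1.1
  have hd : (1 : ℝ) ≤ d := by exact_mod_cast NeZero.one_le
  have hIcc : ∀ τ ∈ Set.Icc (0 : ℝ) 1, -((d : ℝ) - 1) + τ * d ∈ Set.Icc (-((d : ℝ) - 1)) 1 := by
    intro τ hτ
    constructor
    · have := mul_nonneg hτ.1 (by linarith : (0 : ℝ) ≤ d)
      linarith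
    · have := mul_le_mul_of_nonneg_right hτ.2 (by linarith : (0 : ℝ) ≤ d)
      linarith
  have hclosed : ∀ i, IsClosed {x | ∀ k, 0 ≤ p.a i k x} := by
    intro i
    rw [Set.ofPred_forall]
    exact isClosed_iInter fun k =>
      isClosed_le continuous_const (p.a i k).continuous_of_finiteDimensional
  have hcomp : ∀ i, IsCompact {x | ∀ k, 0 ≤ p.a i k x} := by
    intro i
    refine p.compact.of_isClosed_subset (hclosed i) ?_
    rw [p.image]
    exact Set.subset_iUnion (fun i => {x | ∀ k, 0 ≤ p.a i k x}) i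
  let H : (p.D → ℝ) → ℝ → (p.D → ℝ) := fun x τ =>
    ev p.D (R (N (-((d : ℝ) - 1) + τ * d) (p.s x)))
  have hH : ContinuousOn (fun q : (p.D → ℝ) × ℝ => H q.1 q.2) (p.K ×ˢ Set.Icc (0 : ℝ) 1) := by
    have c1 : ContinuousOn (fun q : (p.D → ℝ) × ℝ => (-((d : ℝ) - 1) + q.2 * d, p.s q.1))
        (p.K ×ˢ Set.Icc (0 : ℝ) 1) := by
      refine ContinuousOn.prodMk ?_ ?_
      · exact (continuous_const.add (continuous_snd.mul continuous_const)).continuousOn
      · exact p.cont.comp continuous_fst.continuousOn fun q hq => hq.1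
    have c2 := hN.cont.comp c1 fun q hq => ⟨hIcc q.2 hq.2, hJ q.1 hq.1⟩
    have c3 := hR.cont.comp c2 fun q hq => hN.mem _ (hIcc q.2 hq.2) _ (hJ q.1 hq.1)
    exact (continuous_ev p.D).comp_continuousOn c3
  have hx₀ : ev p.D (degv d) ∈ p.K := Set.mem_image_of_mem _ hR.degv_mem.1
  obtain ⟨r, hr, hrK, hrx⟩ := Brouwer.retract_of_contractible
    (fun i => {x | ∀ k, 0 ≤ p.a i k x}) hcomp (fun i => (p.convex i 0).1) H
    (by rw [← hK]; exact hH)
    (by
      rw [← hK]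
      intro x hx τ hτ
      exact Set.mem_image_of_mem _ (hR.mem _ (hN.mem _ (hIcc τ hτ) _ (hJ x hx))))
    (by
      rw [← hK]
      intro x hx
      show ev p.D (R (N (-((d : ℝ) - 1) + 0 * d) (p.s x))) = x
      rw [zero_mul, add_zero, hN.id _ (hJ x hx), hR.id _ (p.s_mem hx).1, (p.s_mem hx).2])
    (x₀ := ev p.D (degv d)) (by rw [← hK]; exact hx₀)
    (by
      rw [← hK]
      intro x hx
      show ev p.D (R (N (-((d : ℝ) - 1) + 1 * d) (p.s x))) = ev p.D (degv d)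
      have e : -((d : ℝ) - 1) + 1 * d = 1 := by ring
      rw [e, hN.one _ (hJ x hx), hR.degv_mem.2])
  rw [← hK] at hrK hrx
  obtain ⟨B, hB⟩ := p.compact.isBounded.subset_closedBall (0 : p.D → ℝ)
  have hB' : p.K ⊆ Metric.closedBall (0 : p.D → ℝ) B := hB
  obtain ⟨x, -, hx⟩ := Brouwer.brouwer_convex (isCompact_closedBall (0 : p.D → ℝ) B)
    (convex_closedBall _ _) ⟨_, hB' hx₀⟩ (fun x => F (r x))
    (hF.comp hr.continuousOn fun x _ => hrK x) fun x _ => hB' (hm (hrK x))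
  have hxK : x ∈ p.K := by
    rw [← hx]
    exact hm (hrK x)
  refine ⟨x, hxK, ?_⟩
  have h1 := hx
  simp only [hrx x hxK] at h1
  exact h1

end Pool.Agent.DAE
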