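import Pool.Agent.DAE.T.Dyn

/-!
# Block T, part 2: the functional `L_t`

For `t > lam` put `Z_t(h) = ∑_n t^{-n} H(f^n_* h)` and `L(h) = Z_t(h) / Z_t(deg)`,
`ε = 1 / Z_t(deg)`.
-/

set_option autoImplicit false

namespace Pool.Agent.DAE

open MvPolynomial Pool.Agent.H17Dyn

variable {d : ℕ}

/-- the properties of the functional `L_t` -/
structure Fnl [NeZero d] (φ : Poly d ≃ₐ[ℂ] Poly d) (t ε : ℝ) (L : (Poly d → ℝ) → ℝ) : Prop where
  cont : ContinuousOn L (J1 d)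
  pos : ∀ h ∈ J1 d, 0 < L h
  deg : L (degv d) = 1
  smul : ∀ h ∈ J d, ∀ c : ℝ, 0 ≤ c → L (c • h) = c * L h
  mono : ∀ h ∈ J d, ∀ h' ∈ J d, (∀ P, h P ≤ h' P) → L h ≤ L h'
  apply_act : ∀ h ∈ J d, L (act φ h) = t * (L h - ε * HH h)
  convex : ∀ {E : Type} [AddCommGroup E] [Module ℝ E] (K : Set E) (s : E → (Poly d → ℝ)),
    Convex ℝ K → (∀ w ∈ K, s w ∈ J d) → (∀ P, ConvexOn ℝ K fun w => s w P) →
      ConvexOn ℝ K fun w => L (s w)

variable [NeZero d]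

/-- the series `Z_t` -/
noncomputable def Zt (φ : Poly d ≃ₐ[ℂ] Poly d) (t : ℝ) (h : Poly d → ℝ) : ℝ :=
  ∑' n : ℕ, (t ^ n)⁻¹ * HH (act (φ ^ n) h)

/-- a summable bound, uniform on `J_1` -/
lemma exists_bound_Zt {φ : Poly d ≃ₐ[ℂ] Poly d} {lam : ℝ} (hlam : IsDyn φ lam) (h1 : 1 < lam)
    {t : ℝ} (ht : lam < t) : ∃ u : ℕ → ℝ, Summable u ∧ (∀ n, 0 ≤ u n) ∧
      ∀ h ∈ J d, ∀ n, (t ^ n)⁻¹ * HH (act (φ ^ n) h) ≤ u n * HH h := by
  obtain ⟨m, hm1, hm2⟩ := exists_between ht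
  have h0 : 0 < lam := by linarith
  obtain ⟨C, hC, hCn⟩ := hlam.exists_le h0 hm1
  have hm0 : 0 < m := h0.trans hm1
  have ht0 : 0 < t := h0.trans ht
  refine ⟨fun n => C * (m / t) ^ n, ?_, fun n => by positivity, fun h hh n => ?_⟩
  · exact (summable_geometric_of_lt_one (by positivity) ((div_lt_one ht0).2 hm2)).mul_left C
  · have h3 : HH (act (φ ^ n) h) ≤ C * m ^ n * HH h :=
      (HH_act_le (φ ^ n) hh).trans (mul_le_mul_of_nonneg_right (hCn n) (HH_nonneg hh))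
    calc (t ^ n)⁻¹ * HH (act (φ ^ n) h) ≤ (t ^ n)⁻¹ * (C * m ^ n * HH h) :=
          mul_le_mul_of_nonneg_left h3 (by positivity)
      _ = C * (m / t) ^ n * HH h := by
          rw [div_pow]
          ring

/-- convergence: `|H(f^n_* h)| ≤ deg φ^n * H(h)` and `deg φ^n ≤ C μ^n` with `lam < μ < t` -/
lemma summable_Zt {φ : Poly d ≃ₐ[ℂ] Poly d} {lam : ℝ} (hlam : IsDyn φ lam) (h1 : 1 < lam)
    {t : ℝ} (ht : lam < t) {h : Poly d → ℝ} (hh : h ∈ J d) :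
    Summable fun n : ℕ => (t ^ n)⁻¹ * HH (act (φ ^ n) h) := by
  obtain ⟨u, hu, hu0, hb⟩ := exists_bound_Zt hlam h1 ht
  have ht0 : 0 < t := by linarith
  refine Summable.of_nonneg_of_le (fun n => ?_) (hb h hh) (hu.mul_right _)
  exact mul_nonneg (by positivity) (HH_act_nonneg _ hh)

/-- uniform convergence on `J_1` (`continuousOn_tsum`) -/
lemma continuousOn_Zt {φ : Poly d ≃ₐ[ℂ] Poly d} {lam : ℝ} (hlam : IsDyn φ lam) (h1 : 1 < lam)
    {t : ℝ} (ht : lam < t) : ContinuousOn (Zt φ t) (J1 d) := by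
  obtain ⟨u, hu, hu0, hb⟩ := exists_bound_Zt hlam h1 ht
  have ht0 : 0 < t := by linarith
  refine continuousOn_tsum (u := u) (fun n => ?_) hu fun n h hh => ?_
  · exact (continuous_const.mul (continuous_HH.comp (continuous_act (φ ^ n)))).continuousOn
  · rw [Real.norm_eq_abs, abs_of_nonneg (mul_nonneg (by positivity) (HH_act_nonneg _ hh.1))]
    have h3 := hb h hh.1 n
    rwa [hh.2, mul_one] at h3

/-- `H(h) ≤ Z_t(h)`: the term `n = 0` -/
lemma HH_le_Zt {φ : Poly d ≃ₐ[ℂ] Poly d} {lam : ℝ} (hlam : IsDyn φ lam) (h1 : 1 < lam)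
    {t : ℝ} (ht : lam < t) {h : Poly d → ℝ} (hh : h ∈ J d) : HH h ≤ Zt φ t h := by
  have ht0 : 0 < t := by linarith
  have h2 := (summable_Zt hlam h1 ht hh).le_tsum 0
    fun n _ => mul_nonneg (by positivity) (HH_act_nonneg _ hh)
  have h3 : (t ^ 0)⁻¹ * HH (act (φ ^ 0) h) = HH h := by
    rw [pow_zero, inv_one, one_mul, pow_zero]
    rfl
  rw [h3] at h2
  exact h2

lemma Zt_act {φ : Poly d ≃ₐ[ℂ] Poly d} {lam : ℝ} (hlam : IsDyn φ lam) (h1 : 1 < lam)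
    {t : ℝ} (ht : lam < t) {h : Poly d → ℝ} (hh : h ∈ J d) :
    Zt φ t (act φ h) = t * (Zt φ t h - HH h) := by
  have ht0 : 0 < t := by linarith
  have h2 := (summable_Zt hlam h1 ht hh).tsum_eq_zero_add
  have h3 : (t ^ 0)⁻¹ * HH (act (φ ^ 0) h) = HH h := by
    rw [pow_zero, inv_one, one_mul, pow_zero]
    rfl
  rw [h3] at h2
  have h4 : Zt φ t h - HH h = ∑' n : ℕ, (t ^ (n + 1))⁻¹ * HH (act (φ ^ (n + 1)) h) := by
    rw [Zt, h2]
    ring
  rw [h4, ← tsum_mul_left, Zt]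
  congr 1
  funext n
  rw [act_pow_act]
  have h5 : (t ^ (n + 1))⁻¹ = (t ^ n)⁻¹ * t⁻¹ := by rw [pow_succ, mul_inv]
  rw [h5]
  field_simp

lemma Zt_smul (φ : Poly d ≃ₐ[ℂ] Poly d) (t : ℝ) (h : Poly d → ℝ) {c : ℝ} (hc : 0 ≤ c) :
    Zt φ t (c • h) = c * Zt φ t h := by
  rw [Zt, Zt, ← tsum_mul_left]
  congr 1
  funext n
  have h1 : act (φ ^ n) (c • h) = c • act (φ ^ n) h := rfl
  rw [h1, HH_smul _ hc]
  ring

lemma Zt_mono {φ : Poly d ≃ₐ[ℂ] Poly d} {lam : ℝ} (hlam : IsDyn φ lam) (h1 : 1 < lam)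
    {t : ℝ} (ht : lam < t) {h h' : Poly d → ℝ} (hh : h ∈ J d) (hh' : h' ∈ J d)
    (hle : ∀ P, h P ≤ h' P) : Zt φ t h ≤ Zt φ t h' := by
  have ht0 : 0 < t := by linarith
  refine (summable_Zt hlam h1 ht hh).tsum_le_tsum (fun n => ?_) (summable_Zt hlam h1 ht hh')
  exact mul_le_mul_of_nonneg_left (HH_mono fun P => hle _) (by positivity)

/-- `Z_t` is convex along every family whose values are convex functions: `H` is a maximum -/
lemma convexOn_Zt {φ : Poly d ≃ₐ[ℂ] Poly d} {lam : ℝ} (hlam : IsDyn φ lam) (h1 : 1 < lam)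
    {t : ℝ} (ht : lam < t) {E : Type} [AddCommGroup E] [Module ℝ E] (K : Set E)
    (s : E → (Poly d → ℝ)) (hK : Convex ℝ K) (hs : ∀ w ∈ K, s w ∈ J d)
    (hc : ∀ P, ConvexOn ℝ K fun w => s w P) : ConvexOn ℝ K fun w => Zt φ t (s w) := by
  have ht0 : 0 < t := by linarith
  refine ⟨hK, fun x hx y hy a b ha hb hab => ?_⟩
  have hz := hK hx hy ha hb hab
  have h3 : ∀ n : ℕ, (t ^ n)⁻¹ * HH (act (φ ^ n) (s (a • x + b • y))) ≤
      a * ((t ^ n)⁻¹ * HH (act (φ ^ n) (s x))) + b * ((t ^ n)⁻¹ * HH (act (φ ^ n) (s y))) := by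
    intro n
    have h4 : HH (act (φ ^ n) (s (a • x + b • y))) ≤
        a * HH (act (φ ^ n) (s x)) + b * HH (act (φ ^ n) (s y)) := by
      refine HH_le fun i => ?_
      have h5 := (hc ((φ ^ n) (X i))).2 hx hy ha hb hab
      simp only [smul_eq_mul] at h5
      refine h5.trans ?_
      exact add_le_add (mul_le_mul_of_nonneg_left (le_HH (act (φ ^ n) (s x)) i) ha)
        (mul_le_mul_of_nonneg_left (le_HH (act (φ ^ n) (s y)) i) hb)
    calc (t ^ n)⁻¹ * HH (act (φ ^ n) (s (a • x + b • y)))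
        ≤ (t ^ n)⁻¹ * (a * HH (act (φ ^ n) (s x)) + b * HH (act (φ ^ n) (s y))) :=
          mul_le_mul_of_nonneg_left h4 (by positivity)
      _ = _ := by ring
  have hsx := (summable_Zt hlam h1 ht (hs x hx)).mul_left a
  have hsy := (summable_Zt hlam h1 ht (hs y hy)).mul_left b
  have h6 := (summable_Zt hlam h1 ht (hs _ hz)).tsum_le_tsum h3 (hsx.add hsy)
  rw [hsx.tsum_add hsy, tsum_mul_left, tsum_mul_left] at h6
  exact h6

/-- `Z_t(deg) → ∞` for `t → lam`: `deg φ^n ≥ lam^n`; choose `N` with `N ≥ 2 / η` and `t > lam`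
with `(lam / t)^N ≥ 1/2`, then `Z_t(deg) ≥ ∑_{n < N} (lam / t)^n ≥ N / 2`. -/
lemma exists_Zt_degv_ge {φ : Poly d ≃ₐ[ℂ] Poly d} {lam : ℝ} (hlam : IsDyn φ lam) (h1 : 1 < lam)
    {η : ℝ} (hη : 0 < η) : ∃ t, lam < t ∧ (Zt φ t (degv d))⁻¹ ≤ η := by
  have hlam0 : 0 < lam := by linarith
  -- choose `t = lam * (1 + η)`
  have h2 : lam < lam * (1 + η) := by nlinarith
  refine ⟨lam * (1 + η), h2, ?_⟩
  set t := lam * (1 + η) with ht
  have ht0 : 0 < t := hlam0.trans h2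
  have hr0 : 0 ≤ lam / t := by positivity
  have hr1 : lam / t < 1 := (div_lt_one ht0).2 h2
  have h3 : ∑' n : ℕ, (lam / t) ^ n ≤ Zt φ t (degv d) := by
    refine (summable_geometric_of_lt_one hr0 hr1).tsum_le_tsum (fun n => ?_)
      (summable_Zt hlam h1 h2 degv_mem_J1.1)
    have h4 : HH (act (φ ^ n) (degv d)) = adeg (φ ^ n) := by
      apply le_antisymm
      · have h5 := HH_act_le (φ ^ n) (degv_mem_J1 (d := d)).1
        rwa [degv_mem_J1.2, mul_one] at h5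
      · obtain ⟨i, -, hi⟩ := Finset.exists_mem_eq_sup (Finset.univ : Finset (Fin d))
          ⟨0, Finset.mem_univ _⟩ (fun i => ((φ ^ n) (X i)).totalDegree)
        have h5 : (adeg (φ ^ n) : ℝ) = act (φ ^ n) (degv d) (X i) := by
          simp only [act, degv]
          exact_mod_cast hi
        rw [h5]
        exact le_HH _ i
    rw [h4, div_pow, div_eq_inv_mul]
    exact mul_le_mul_of_nonneg_left (hlam.pow_le n) (by positivity)
  rw [tsum_geometric_of_lt_one hr0 hr1] at h3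
  have h5 : (1 - lam / t)⁻¹ = (1 + η) / η := by
    have h6 : (0 : ℝ) < 1 + η := by linarith
    have h7 : 1 - lam / t = η / (1 + η) := by
      have h8 : lam / t = 1 / (1 + η) := by
        rw [ht, div_mul_eq_div_div, div_self hlam0.ne']
      rw [h8, eq_div_iff h6.ne', sub_mul, one_mul, one_div, inv_mul_cancel₀ h6.ne']
      ring
    rw [h7, inv_div]
  rw [h5] at h3
  have h6 : η⁻¹ ≤ Zt φ t (degv d) := by
    refine le_trans ?_ h3
    rw [inv_eq_one_div]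
    exact div_le_div_of_nonneg_right (by linarith) hη.le
  have h7 := inv_anti₀ (inv_pos.2 hη) h6
  rwa [inv_inv] at h7

/-- **the functional** -/
theorem exists_fnl {φ : Poly d ≃ₐ[ℂ] Poly d} {lam : ℝ} (hlam : IsDyn φ lam) (h1 : 1 < lam)
    {η : ℝ} (hη : 0 < η) :
    ∃ (t ε : ℝ) (L : (Poly d → ℝ) → ℝ), lam < t ∧ 0 < ε ∧ ε ≤ η ∧ Fnl φ t ε L := by
  obtain ⟨t, ht, hte⟩ := exists_Zt_degv_ge hlam h1 hη
  set Z0 := Zt φ t (degv d) with hZ0
  have hZ : 0 < Z0 := by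
    have h2 := HH_le_Zt hlam h1 ht (degv_mem_J1 (d := d)).1
    rw [degv_mem_J1.2] at h2
    linarith
  refine ⟨t, Z0⁻¹, fun h => Zt φ t h / Z0, ht, inv_pos.2 hZ, hte, ?_, ?_, ?_, ?_, ?_, ?_, ?_⟩
  · exact (continuousOn_Zt hlam h1 ht).div_const _
  · intro h hh
    have h2 := HH_le_Zt hlam h1 ht hh.1
    rw [hh.2] at h2
    exact div_pos (by linarith) hZ
  · exact div_self hZ.ne'
  · intro h hh c hc
    rw [Zt_smul φ t h hc, mul_div_assoc]
  · intro h hh h' hh' hle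
    exact div_le_div_of_nonneg_right (Zt_mono hlam h1 ht hh hh' hle) hZ.le
  · intro h hh
    rw [Zt_act hlam h1 ht hh]
    field_simp
  · intro E _ _ K s hK hs hc
    have h2 := convexOn_Zt hlam h1 ht K s hK hs hc
    have h3 := h2.smul (inv_nonneg.2 hZ.le)
    refine h3.congr fun w _ => ?_
    simp only [smul_eq_mul]
    rw [div_eq_inv_mul]

end Pool.Agent.DAE
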