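import Pool.Agent.DAE.T.Step

/-!
# Block T, part 10: Theorem A
-/

set_option autoImplicit false

namespace Pool.Agent.DAE

open MvPolynomial Pool.Agent.H17Dyn

variable {d : ℕ} [NeZero d]

/-- the limit `D0 → A`. PROOF. For every finite `D0` take `g`, `R` (`RetractionStatement`), pieces
(`nonempty_pieces`) and `W_{D0}` (`exists_eigen_g`), `θ_{D0} = HH (act φ W_{D0}) ≥ lam`. For
`P ∈ D0`: `W_{D0}(P) = R (nact φ W_{D0}) (P) = nact φ W_{D0} (P)`, i.e.
`W_{D0} (φ P) = θ_{D0} * W_{D0} P`. Let `W ∈ J_1` be a cluster point (`J_1` is compact) of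
`D0 ↦ W_{D0}` along `Filter.atTop : Filter (Finset (Poly d))`. For fixed `P` the set of the
`h ∈ J_1` with `lam ≤ HH (act φ h)` and `h (φ P) = HH (act φ h) * h P` is closed and contains
`W_{D0}` for all `D0 ∋ P`, so it contains `W`. Finally `θ = HH (act φ W) ≤ lam` by
`IsDyn.eigen_le`. -/
theorem theoremA (hC : CompactStatement d) (hN : NoiseStatement d) (hR : RetractionStatement d)
    (hS : CellsStatement d) : TheoremAStatement d := by
  classical
  intro φ lam hlam h1
  obtain ⟨N, hN'⟩ := exists_noise hN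
  have hex : ∀ D0 : Finset (Poly d), ∃ W ∈ J1 d, lam ≤ HH (act φ W) ∧
      ∀ P ∈ D0, W (φ P) = HH (act φ W) * W P := by
    intro D0
    obtain ⟨g, hg, R, hRc, hR1, hRid⟩ := hR D0
    have hRR : Retr g R :=
      ⟨hRc, fun h hh => (hR1 h hh).1, fun h hh => (hR1 h hh).2.1, hRid⟩
    obtain ⟨p⟩ := nonempty_pieces hC hS hg
    obtain ⟨W, hW, hRW, hθ⟩ := exists_eigen_g hC hN' hRR p hlam h1
    refine ⟨W, hW.1, hθ, fun P hP => ?_⟩
    have e1 : R (nact φ W) P = nact φ W P := (hR1 _ (nact_mem_J1 φ hW.1)).2.2 P hP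
    rw [hRW] at e1
    have e2 : nact φ W P = (HH (act φ W))⁻¹ * W (φ P) := rfl
    rw [e1, e2, mul_inv_cancel_left₀ (HH_act_pos φ hW.1).ne']
  choose W hW hθ hφ using hex
  let U : Ultrafilter (Finset (Poly d)) := Ultrafilter.of Filter.atTop
  obtain ⟨V, hV, hUV⟩ := hC.1.ultrafilter_le_nhds (U.map W) (by
    rw [Filter.le_principal_iff]
    exact Filter.mem_map.2 (Filter.univ_mem' hW))
  have ht : Filter.Tendsto W (U : Filter (Finset (Poly d))) (nhds V) := hUV
  have hHc : Continuous fun h : Poly d → ℝ => HH (act φ h) :=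
    continuous_HH.comp (continuous_act φ)
  have hHt : Filter.Tendsto (fun D0 => HH (act φ (W D0))) (U : Filter (Finset (Poly d)))
      (nhds (HH (act φ V))) := (hHc.tendsto V).comp ht
  have hev : ∀ P : Poly d, Filter.Tendsto (fun D0 => W D0 P) (U : Filter (Finset (Poly d)))
      (nhds (V P)) := fun P => ((continuous_apply P).tendsto V).comp ht
  have hle : lam ≤ HH (act φ V) := ge_of_tendsto' hHt hθ
  have heq : ∀ P, V (φ P) = HH (act φ V) * V P := by
    intro P
    have h2 : ∀ᶠ D0 in (U : Filter (Finset (Poly d))), {P} ≤ D0 :=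
      (Filter.eventually_ge_atTop ({P} : Finset (Poly d))).filter_mono (Ultrafilter.of_le _)
    refine tendsto_nhds_unique_of_eventuallyEq (hev (φ P)) (hHt.mul (hev P)) ?_
    filter_upwards [h2] with D0 hD
    exact hφ D0 P (hD (Finset.mem_singleton_self P))
  have hge : HH (act φ V) ≤ lam :=
    hlam.eigen_le hV ((zero_lt_one.trans h1).le.trans hle) heq
  refine ⟨V, hV, fun P => ?_⟩
  rw [heq P, le_antisymm hge hle]

end Pool.Agent.DAE
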