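import Pool.Agent.DAE.T.Basic

/-!
# Block T, part 7: `Σ_g` as a finite union of compact polytopes
-/

set_option autoImplicit false

namespace Pool.Agent.DAE

open MvPolynomial Pool.Agent.H17Dyn

variable {d : ℕ} [NeZero d]

/-- `Σ_g` as a union of polytopes: the data -/
structure Pieces (g : Fin d → Poly d) where
  /-- the finite set of polynomials which separates the points -/
  D : Finset (Poly d)
  /-- the inverse of the evaluation -/
  s : (D → ℝ) → (Poly d → ℝ)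
  α : Type
  β : Type
  finα : Finite α
  finβ : Finite β
  /-- the affine functions which define the pieces -/
  a : α → β → ((D → ℝ) →ᵃ[ℝ] ℝ)
  left_inv : ∀ h ∈ Sig1 g, s (ev D h) = h
  image : ev D '' Sig1 g = ⋃ i, {x | ∀ k, 0 ≤ a i k x}
  convex : ∀ i P, ConvexOn ℝ {x | ∀ k, 0 ≤ a i k x} fun w => s w P
  compact : IsCompact (ev D '' Sig1 g)
  cont : ContinuousOn s (ev D '' Sig1 g)

/-- the compact polyhedron -/
def Pieces.K {g : Fin d → Poly d} (p : Pieces g) : Set (p.D → ℝ) := ev p.D '' Sig1 g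

lemma Pieces.s_mem {g : Fin d → Poly d} (p : Pieces g) {x : p.D → ℝ} (hx : x ∈ p.K) :
    p.s x ∈ Sig1 g ∧ ev p.D (p.s x) = x := by
  obtain ⟨h, hh, rfl⟩ := hx
  rw [p.left_inv h hh]
  exact ⟨hh, rfl⟩

lemma continuous_ev (D : Finset (Poly d)) : Continuous (ev D) :=
  continuous_pi fun q => continuous_apply (q : Poly d)

/-- a continuous injective map on a compact set has a continuous inverse: the inverse image under
`s` of a closed set `Z` is `f '' (C ∩ Z)`, which is compact (`continuousOn_iff_isClosed`). -/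
lemma continuousOn_inv {X Y : Type*} [TopologicalSpace X] [TopologicalSpace Y] [T2Space Y]
    {C : Set X} (hC : IsCompact C) {f : X → Y} (hf : Continuous f) {s : Y → X}
    (hs : ∀ x ∈ C, s (f x) = x) : ContinuousOn s (f '' C) := by
  rw [continuousOn_iff_isClosed]
  intro t ht
  refine ⟨f '' (C ∩ t), ((hC.inter_right ht).image hf).isClosed, ?_⟩
  ext y
  constructor
  · rintro ⟨hy, x, hx, rfl⟩
    have h1 : s (f x) ∈ t := hy
    rw [hs x hx] at h1
    exact ⟨⟨x, ⟨hx, h1⟩, rfl⟩, x, hx, rfl⟩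
  · rintro ⟨⟨x, ⟨hx, hxt⟩, rfl⟩, hy⟩
    refine ⟨?_, hy⟩
    show s (f x) ∈ t
    rw [hs x hx]
    exact hxt

/-- **`Σ_g` is a finite union of polytopes.** PROOF. Take `D`, `s`, `ℓ c k` from
`CellsStatement`; `x_i ∈ D`. Pieces: for a cell `c` and an `i : Fin d` the set of the `w` with
`ℓ c k w ≥ 0` for all `k`, `w(x_i) ≥ 1` and `w(x_j) ≤ 1` for all `j` (then `w(x_i) = 1`):
`α = Fin n × Fin d`, `β = Fin m ⊕ Unit ⊕ Fin d`. If `h ∈ Sig g` and `w = ev D h` then
`HH h = 1` if and only if `w(x_j) ≤ 1` for all `j` and `w(x_i) ≥ 1` for some `i`; this gives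
`image`. `convex`: restrict `ConvexOn` to the convex subset. `compact`: `Sig1 g` is a closed subset
of the compact set `J1 d` (`isClosed_isMono`) and `ev D` is continuous. `cont`:
`continuousOn_inv`. (`Sig1 g ⊆ Sig g`.) -/
theorem nonempty_pieces (hC : CompactStatement d) (hS : CellsStatement d)
    {g : Fin d → Poly d} (hg : Frame g) : Nonempty (Pieces g) := by
  obtain ⟨D, s, n, m, ℓ, hXD, hs, him, hconv⟩ := hS g hg
  have hsub : Sig1 g ⊆ Sig g := fun h hh => ⟨hh.1.1, hh.2⟩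
  let pr : Fin d → ((D → ℝ) →ᵃ[ℝ] ℝ) := fun j =>
    (LinearMap.proj (⟨X j, hXD j⟩ : D) : (D → ℝ) →ₗ[ℝ] ℝ).toAffineMap
  let one : (D → ℝ) →ᵃ[ℝ] ℝ := AffineMap.const ℝ (D → ℝ) (1 : ℝ)
  let a : Fin n × Fin d → Fin m ⊕ (Unit ⊕ Fin d) → ((D → ℝ) →ᵃ[ℝ] ℝ) := fun p =>
    Sum.elim (fun k => (ℓ p.1 k).toAffineMap)
      (Sum.elim (fun _ => pr p.2 - one) (fun j => one - pr j))
  have hset : ∀ (p : Fin n × Fin d) (x : D → ℝ), (∀ k, 0 ≤ a p k x) ↔
      ((∀ k, 0 ≤ ℓ p.1 k x) ∧ 1 ≤ x ⟨X p.2, hXD p.2⟩ ∧ ∀ j, x ⟨X j, hXD j⟩ ≤ 1) := by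
    intro p x
    constructor
    · intro h
      refine ⟨fun k => h (Sum.inl k), ?_, fun j => ?_⟩
      · have h1 := h (Sum.inr (Sum.inl ()))
        change 0 ≤ x ⟨X p.2, hXD p.2⟩ - 1 at h1
        linarith
      · have h1 := h (Sum.inr (Sum.inr j))
        change 0 ≤ 1 - x ⟨X j, hXD j⟩ at h1
        linarith
    · rintro ⟨h1, h2, h3⟩ (k | u | j)
      · exact h1 k
      · change 0 ≤ x ⟨X p.2, hXD p.2⟩ - 1
        linarith
      · change 0 ≤ 1 - x ⟨X j, hXD j⟩
        linarith [h3 j]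
  have hconvex : ∀ p, Convex ℝ {x : D → ℝ | ∀ k, 0 ≤ a p k x} := by
    intro p
    have h1 : {x : D → ℝ | ∀ k, 0 ≤ a p k x} = ⋂ k, (a p k) ⁻¹' Set.Ici 0 := by
      ext x
      simp only [Set.mem_iInter, Set.mem_preimage, Set.mem_Ici]
      rfl
    rw [h1]
    exact convex_iInter fun k => (convex_Ici (0 : ℝ)).affine_preimage (a p k)
  have hcomp : IsCompact (Sig1 g) := hC.1.inter_right (isClosed_isMono g)
  refine ⟨⟨D, s, Fin n × Fin d, Fin m ⊕ (Unit ⊕ Fin d), inferInstance, inferInstance, a,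
    fun h hh => hs h (hsub hh), ?_, fun p P => ?_, hcomp.image (continuous_ev D),
    continuousOn_inv hcomp (continuous_ev D) fun h hh => hs h (hsub hh)⟩⟩
  · apply Set.Subset.antisymm
    · rintro _ ⟨h, hh, rfl⟩
      have h1 : ev D h ∈ ev D '' Sig g := ⟨h, hsub hh, rfl⟩
      rw [him, Set.mem_iUnion] at h1
      obtain ⟨c, hc⟩ := h1
      obtain ⟨i, hi⟩ := exists_HH h
      rw [Set.mem_iUnion]
      refine ⟨(c, i), (hset (c, i) _).2 ⟨hc, ?_, fun j => ?_⟩⟩
      · change 1 ≤ h (X i)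
        rw [← hi, hh.1.2]
      · change h (X j) ≤ 1
        rw [← hh.1.2]
        exact le_HH h j
    · intro x hx
      rw [Set.mem_iUnion] at hx
      obtain ⟨p, hp⟩ := hx
      obtain ⟨h1, h2, h3⟩ := (hset p x).1 hp
      have h4 : x ∈ ev D '' Sig g := by
        rw [him, Set.mem_iUnion]
        exact ⟨p.1, h1⟩
      obtain ⟨h, hh, rfl⟩ := h4
      refine ⟨h, ⟨⟨hh.1, ?_⟩, hh.2⟩, rfl⟩
      exact le_antisymm (HH_le h3) (le_trans h2 (le_HH h p.2))
  · exact (hconv p.1 P).subset (fun x hx => ((hset p x).1 hx).1) (hconvex p)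

end Pool.Agent.DAE
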