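import Pool.Agent.DAE.T.StepAux

/-!
# Block T, part 9b: approximate eigenvaluations for fixed `g`, limit
-/

set_option autoImplicit false

namespace Pool.Agent.DAE

open MvPolynomial Pool.Agent.H17Dyn

variable {d : ℕ} [NeZero d]

/-- **approximate eigenvaluations.** PROOF. `K₀ = deg φ ≥ lam`, `M = 4 K₀ / lam ≥ 4`, `Λ = 4 M`;
`exists_trap` for `p.a`, `p.K`, `Λ`, `M`, `μ` gives `n`; put
`η = min (Λ⁻¹ ^ (n + 1) / 2) (μ * Λ⁻¹ ^ n / 2)` and take `t`, `ε ≤ η`, `L` from `exists_fnl`.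
`x ↦ L (s x)` is continuous on `K` and convex on the pieces (`Fnl.convex`, `Pieces.convex`; the
piece is a subset of `K`, so `s x ∈ Sig1 g ⊆ J d`). `exists_trap` gives `k ≤ n` and `κ`; apply
`approx_aux`: `2 ε ≤ Λ⁻¹ ^ (n + 1) ≤ Λ⁻¹ ^ (k + 1)` and `2 ε / Λ⁻¹ ^ k ≤ 2 ε / Λ⁻¹ ^ n ≤ μ`. -/
theorem approx (hC : CompactStatement d) {N : ℝ → (Poly d → ℝ) → (Poly d → ℝ)}
    (hN : Noise d N) {g : Fin d → Poly d} {R : (Poly d → ℝ) → (Poly d → ℝ)} (hR : Retr g R)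
    (p : Pieces g) {φ : Poly d ≃ₐ[ℂ] Poly d} {lam : ℝ} (hlam : IsDyn φ lam) (h1 : 1 < lam)
    {μ : ℝ} (hμ : 0 < μ) :
    ∃ w ∈ Sig1 g, dist (ev p.D w) (ev p.D (R (nact φ w))) ≤ μ ∧
      lam * (1 - μ) ≤ HH (act φ w) := by
  have hl0 : 0 < lam := lt_trans one_pos h1
  have hK0 : lam ≤ (adeg φ : ℝ) := by
    have h2 := hlam.pow_le 1
    rwa [pow_one, pow_one] at h2
  obtain ⟨M, hM⟩ : ∃ M : ℝ, M = 4 * adeg φ / lam := ⟨_, rfl⟩
  obtain ⟨Λ, hΛ⟩ : ∃ Λ : ℝ, Λ = 4 * M := ⟨_, rfl⟩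
  have hM4 : 4 ≤ M := by
    rw [hM, le_div_iff₀ hl0]
    linarith
  have hΛ2 : 2 ≤ Λ := by linarith
  have hΛ0 : 0 < Λ⁻¹ := inv_pos.2 (by linarith)
  have hΛ1 : Λ⁻¹ ≤ 1 := inv_le_one_of_one_le₀ (by linarith)
  have := p.finα
  have := p.finβ
  obtain ⟨n, hn⟩ := exists_trap p.a p.compact p.image (Λ := Λ) (M := M) (μ := μ) hΛ2 hμ
  have hη : 0 < min (Λ⁻¹ ^ (n + 1) / 2) (μ * Λ⁻¹ ^ n / 2) :=
    lt_min (half_pos (pow_pos hΛ0 _)) (half_pos (mul_pos hμ (pow_pos hΛ0 _)))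
  obtain ⟨t, ε, L, ht, hε, hεη, hL⟩ := exists_fnl hlam h1 hη
  have hsub : ∀ i, ∀ x, (∀ k, 0 ≤ p.a i k x) → x ∈ p.K := by
    intro i x hx
    have h2 : x ∈ ⋃ i, {x | ∀ k, 0 ≤ p.a i k x} := Set.mem_iUnion.2 ⟨i, hx⟩
    rw [← p.image] at h2
    exact h2
  obtain ⟨k, hk, κ, hκ, hκm, hκ1, hκ2, hκ3⟩ := hn (fun x => L (p.s x))
    (hL.cont.comp p.cont fun x hx => (p.s_mem hx).1.1)
    (fun i => hL.convex _ p.s (p.convex i 0).1
      (fun x hx => (p.s_mem (hsub i x hx)).1.1.1) (p.convex i))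
  have hpk : 0 < Λ⁻¹ ^ k := pow_pos hΛ0 k
  have h2 : 2 * ε ≤ Λ⁻¹ ^ (n + 1) := by
    have := hεη.trans (min_le_left _ _)
    linarith
  have h3 : 2 * ε ≤ μ * Λ⁻¹ ^ n := by
    have := hεη.trans (min_le_right _ _)
    linarith
  have h4 : Λ⁻¹ ^ (n + 1) ≤ Λ⁻¹ ^ (k + 1) :=
    pow_le_pow_of_le_one hΛ0.le hΛ1 (Nat.succ_le_succ hk)
  have h5 : Λ⁻¹ ^ n ≤ Λ⁻¹ ^ k := pow_le_pow_of_le_one hΛ0.le hΛ1 hk
  obtain ⟨w, hw, hw1, hw2⟩ := approx_aux hC hN hR p hlam h1 ht hε hL hM hΛ (h2.trans h4)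
    hκ hκm hκ1 hκ2 hκ3
  refine ⟨w, hw, hw1, le_trans (mul_le_mul_of_nonneg_left ?_ hl0.le) hw2⟩
  have h6 : 2 * ε / Λ⁻¹ ^ k ≤ μ := by
    rw [div_le_iff₀ hpk]
    exact h3.trans (mul_le_mul_of_nonneg_left h5 hμ.le)
  linarith

/-- **the limit `μ → 0`** by compactness of `K`: take `w_n` for `μ = 1/(n+1)`; a subsequence of
`x_n = ev D w_n ∈ K` converges to `x ∈ K`, `W = s x`. `x ↦ ev D (R (nact φ (s x)))` and
`x ↦ HH (act φ (s x))` are continuous on `K`. -/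
theorem exists_eigen_g (hC : CompactStatement d) {N : ℝ → (Poly d → ℝ) → (Poly d → ℝ)}
    (hN : Noise d N) {g : Fin d → Poly d} {R : (Poly d → ℝ) → (Poly d → ℝ)} (hR : Retr g R)
    (p : Pieces g) {φ : Poly d ≃ₐ[ℂ] Poly d} {lam : ℝ} (hlam : IsDyn φ lam) (h1 : 1 < lam) :
    ∃ W ∈ Sig1 g, R (nact φ W) = W ∧ lam ≤ HH (act φ W) := by
  have hμ : ∀ n : ℕ, 0 < 1 / ((n : ℝ) + 1) := fun n => Nat.one_div_pos_of_nat
  choose w hw hw1 hw2 using fun n => approx hC hN hR p hlam h1 (hμ n)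
  have hx : ∀ n, ev p.D (w n) ∈ p.K := fun n => ⟨w n, hw n, rfl⟩
  have hcomp : IsCompact p.K := p.compact
  obtain ⟨x, hxK, ψ, hψ, hlim⟩ := hcomp.tendsto_subseq hx
  have hs : ContinuousOn p.s p.K := p.cont
  have hsJ : Set.MapsTo p.s p.K (J1 d) := fun x hx => (p.s_mem hx).1.1
  have hG : ContinuousOn (fun x => ev p.D (R (nact φ (p.s x)))) p.K :=
    (continuous_ev p.D).comp_continuousOn
      (hR.cont.comp ((continuousOn_nact φ).comp hs hsJ) fun x hx => nact_mem_J1 φ (hsJ hx))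
  have hH : ContinuousOn (fun x => HH (act φ (p.s x))) p.K :=
    (continuous_HH.comp (continuous_act φ)).comp_continuousOn hs
  have hwithin : Filter.Tendsto (fun n => ev p.D (w (ψ n))) Filter.atTop (nhdsWithin x p.K) :=
    tendsto_nhdsWithin_iff.2 ⟨hlim, Filter.Eventually.of_forall fun n => hx (ψ n)⟩
  have hG1 : Filter.Tendsto (fun n => ev p.D (R (nact φ (w (ψ n))))) Filter.atTop
      (nhds (ev p.D (R (nact φ (p.s x))))) := by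
    have h2 := (hG x hxK).tendsto.comp hwithin
    refine h2.congr fun n => ?_
    simp only [Function.comp_apply]
    rw [p.left_inv _ (hw (ψ n))]
  have hH1 : Filter.Tendsto (fun n => HH (act φ (w (ψ n)))) Filter.atTop
      (nhds (HH (act φ (p.s x)))) := by
    have h2 := (hH x hxK).tendsto.comp hwithin
    refine h2.congr fun n => ?_
    simp only [Function.comp_apply]
    rw [p.left_inv _ (hw (ψ n))]
  have hμ0 : Filter.Tendsto (fun n : ℕ => 1 / (((ψ n : ℕ) : ℝ) + 1)) Filter.atTop (nhds 0) :=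
    tendsto_one_div_add_atTop_nhds_zero_nat.comp hψ.tendsto_atTop
  have hdist : dist x (ev p.D (R (nact φ (p.s x)))) ≤ 0 :=
    le_of_tendsto_of_tendsto' (hlim.dist hG1) hμ0 fun n => hw1 (ψ n)
  have heq : x = ev p.D (R (nact φ (p.s x))) := dist_le_zero.1 hdist
  have hW : p.s x ∈ Sig1 g := (p.s_mem hxK).1
  have hRW : R (nact φ (p.s x)) ∈ Sig1 g := hR.mem _ (nact_mem_J1 φ hW.1)
  refine ⟨p.s x, hW, ?_, ?_⟩
  · have h2 := p.left_inv _ hRW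
    rw [← heq] at h2
    exact h2.symm
  · have h2 : Filter.Tendsto (fun n : ℕ => lam * (1 - 1 / (((ψ n : ℕ) : ℝ) + 1))) Filter.atTop
        (nhds (lam * (1 - 0))) := (tendsto_const_nhds.sub hμ0).const_mul lam
    rw [sub_zero, mul_one] at h2
    exact le_of_tendsto_of_tendsto' h2 hH1 fun n => hw2 (ψ n)

end Pool.Agent.DAE
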