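import Pool.Agent.DAE.T.Cells

/-!
# Block T, part 5: iteration of the trap
-/

set_option autoImplicit false

namespace Pool.Agent.DAE

variable {ι : Type*} [Fintype ι] {J : Type*} [Finite J]

private noncomputable def ti_chi (c u : ℝ) : ℝ := max 0 (min 1 (2 - 2 * u / c))

private lemma ti_chi_nonneg (c u : ℝ) : 0 ≤ ti_chi c u := le_max_left _ _

private lemma ti_chi_le (c u : ℝ) : ti_chi c u ≤ 1 := max_le zero_le_one (min_le_left _ _)

private lemma ti_chi_zero {c u : ℝ} (hc : 0 < c) (h : c ≤ u) : ti_chi c u = 0 := by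
  unfold ti_chi
  have h1 : 2 - 2 * u / c ≤ 0 := by
    rw [sub_nonpos, le_div_iff₀ hc]
    linarith
  exact max_eq_left ((min_le_right _ _).trans h1)

private lemma ti_chi_one {c u : ℝ} (hc : 0 < c) (h : u ≤ c / 2) : ti_chi c u = 1 := by
  unfold ti_chi
  have h1 : 1 ≤ 2 - 2 * u / c := by
    have h2 : 2 * u / c ≤ 1 := by
      rw [div_le_one hc]
      linarith
    linarith
  rw [min_eq_left h1]
  exact max_eq_right zero_le_one

private lemma ti_chi_cont (c : ℝ) : Continuous (ti_chi c) := by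
  unfold ti_chi
  fun_prop

/-- one small step: `κ₁ x = x + h χ(L x) (x - p x)`, where `χ u = max 0 (min 1 (2 - 2 u / c))`
(`χ = 1` for `u ≤ c / 2`, `χ = 0` for `u ≥ c`), `κ₁ x = x` for `c ≤ L x`.
Convexity: with `h' = h χ`, `x = (κ₁ x + h' p x) / (1 + h')`, so
`(1 + h') L x ≤ L (κ₁ x) + h' L (p x) ≤ L (κ₁ x) + h' a`. -/
lemma trap_small (l : J → ((ι → ℝ) →ᵃ[ℝ] ℝ)) {K : Set (ι → ℝ)} (hK : IsCompact K)
    (hcell : ∀ x ∈ K, cell l x ⊆ K) {L : (ι → ℝ) → ℝ} (hL : ContinuousOn L K)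
    (hconv : ∀ x ∈ K, ConvexOn ℝ (cell l x) L) {a c : ℝ} (ha : 0 < a) (hac : 2 * a ≤ c)
    {μ : ℝ} (hμ : ∀ x ∈ K, ∀ y ∈ cell l x, dist y x ≤ μ)
    {p : (ι → ℝ) → (ι → ℝ)} {h₀ : ℝ} (hp : ContinuousOn p {x | x ∈ K ∧ L x ≤ c})
    (hp' : ∀ x ∈ K, L x ≤ c → p x ∈ cell l x ∧ L (p x) ≤ a ∧
        ∀ h, 0 ≤ h → h ≤ h₀ → x + h • (x - p x) ∈ cell l x) {h : ℝ} (h0 : 0 ≤ h) (hh : h ≤ h₀) :
    ∃ κ : (ι → ℝ) → (ι → ℝ), ContinuousOn κ K ∧ Set.MapsTo κ K K ∧
      (∀ x ∈ K, c ≤ L x → κ x = x) ∧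
      (∀ x ∈ K, 2 * a ≤ L x → L x ≤ L (κ x) ∧ min ((1 + h / 2) * L x) (c / 2) ≤ L (κ x)) ∧
      ∀ x ∈ K, dist (κ x) x ≤ h * μ := by
  classical
  have hc : 0 < c := by linarith
  set κ : (ι → ℝ) → (ι → ℝ) :=
    fun x => if L x ≤ c then x + (h * ti_chi c (L x)) • (x - p x) else x with hκ
  have hle : ∀ x, L x ≤ c → κ x = x + (h * ti_chi c (L x)) • (x - p x) := fun x hx => if_pos hx
  have hge : ∀ x, c ≤ L x → κ x = x := by
    intro x hx
    by_cases h1 : L x ≤ c
    · rw [hle x h1, ti_chi_zero hc hx, mul_zero, zero_smul, add_zero]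
    · exact if_neg h1
  have hh' : ∀ x, 0 ≤ h * ti_chi c (L x) ∧ h * ti_chi c (L x) ≤ h := fun x =>
    ⟨mul_nonneg h0 (ti_chi_nonneg _ _), mul_le_of_le_one_right h0 (ti_chi_le _ _)⟩
  have hmem : ∀ x ∈ K, L x ≤ c → κ x ∈ cell l x := by
    intro x hx h1
    rw [hle x h1]
    exact (hp' x hx h1).2.2 _ (hh' x).1 ((hh' x).2.trans hh)
  refine ⟨κ, ?_, ?_, fun x _ hx => hge x hx, ?_, ?_⟩
  · have hc1 : IsClosed (K ∩ L ⁻¹' Set.Iic c) :=
      hL.preimage_isClosed_of_isClosed hK.isClosed isClosed_Iic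
    have hc2 : IsClosed (K ∩ L ⁻¹' Set.Ici c) :=
      hL.preimage_isClosed_of_isClosed hK.isClosed isClosed_Ici
    have hun : K = (K ∩ L ⁻¹' Set.Iic c) ∪ (K ∩ L ⁻¹' Set.Ici c) := by
      ext x
      constructor
      · intro hx
        rcases le_total (L x) c with h1 | h1
        · exact Or.inl ⟨hx, h1⟩
        · exact Or.inr ⟨hx, h1⟩
      · rintro (h1 | h1)
        · exact h1.1
        · exact h1.1
    rw [hun]
    refine ContinuousOn.union_of_isClosed ?_ ?_ hc1 hc2
    · have h1 : ContinuousOn (fun x => x + (h * ti_chi c (L x)) • (x - p x))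
          (K ∩ L ⁻¹' Set.Iic c) := by
        refine continuousOn_id.add (ContinuousOn.smul (continuousOn_const.mul
          ((ti_chi_cont c).comp_continuousOn (hL.mono Set.inter_subset_left)))
          (continuousOn_id.sub hp))
      exact h1.congr fun x hx => hle x hx.2
    · exact continuousOn_id.congr fun x hx => hge x hx.2
  · intro x hx
    rcases le_total (L x) c with h1 | h1
    · exact hcell x hx (hmem x hx h1)
    · rw [hge x h1]
      exact hx
  · intro x hx h2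
    rcases le_total c (L x) with h1 | h1
    · rw [hge x h1]
      exact ⟨le_refl _, (min_le_right _ _).trans (by linarith)⟩
    · obtain ⟨q1, q2, -⟩ := hp' x hx h1
      obtain ⟨e, he⟩ : ∃ e, e = h * ti_chi c (L x) := ⟨_, rfl⟩
      have e0 : 0 ≤ e := he ▸ (hh' x).1
      have e1 : 0 < 1 + e := by linarith
      have hkx := hmem x hx h1
      have key : L x ≤ (1 / (1 + e)) * L (κ x) + (e / (1 + e)) * L (p x) := by
        have h3 := (hconv x hx).2 hkx q1 (show (0 : ℝ) ≤ 1 / (1 + e) by positivity)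
          (show (0 : ℝ) ≤ e / (1 + e) by positivity) (by field_simp)
        have h4 : (1 / (1 + e)) • κ x + (e / (1 + e)) • p x = x := by
          rw [hle x h1, ← he]
          have h5 : (1 / (1 + e)) • (x + e • (x - p x)) + (e / (1 + e)) • p x =
              ((1 / (1 + e)) * (1 + e)) • x := by
            module
          rw [h5, one_div_mul_cancel e1.ne', one_smul]
        rw [h4] at h3
        exact h3
      have key2 : (1 + e) * L x ≤ L (κ x) + e * L (p x) := by
        have h3 := mul_le_mul_of_nonneg_left key e1.le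
        have h4 : (1 + e) * ((1 / (1 + e)) * L (κ x) + (e / (1 + e)) * L (p x)) =
            L (κ x) + e * L (p x) := by
          field_simp
        rwa [h4] at h3
      have key3 : L x + e * (L x / 2) ≤ L (κ x) := by
        have h3 : e * L (p x) ≤ e * (L x / 2) := mul_le_mul_of_nonneg_left (by linarith) e0
        nlinarith
      have hLx : 0 < L x := by linarith
      have key4 : L x ≤ L (κ x) := by
        have : 0 ≤ e * (L x / 2) := by positivity
        linarith
      refine ⟨key4, ?_⟩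
      rcases le_total (L x) (c / 2) with h3 | h3
      · rw [ti_chi_one hc h3, mul_one] at he
        refine (min_le_left _ _).trans ?_
        rw [he] at key3
        linarith
      · exact (min_le_right _ _).trans (h3.trans key4)
  · intro x hx
    have hμ0 : 0 ≤ μ := by
      have := hμ x hx x (mem_cell_self l x)
      rwa [dist_self] at this
    rcases le_total (L x) c with h1 | h1
    · rw [hle x h1, dist_eq_norm, add_sub_cancel_left, norm_smul, Real.norm_of_nonneg (hh' x).1,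
        ← dist_eq_norm, dist_comm]
      exact mul_le_mul (hh' x).2 (hμ x hx _ (hp' x hx h1).1) dist_nonneg h0
    · rw [hge x h1, dist_self]
      exact mul_nonneg h0 hμ0

/-- **iteration**: take `h = 1/N ≤ h₀` and iterate `N k` times, where `(3/2)^k ≥ M`;
`(1 + 1/(2N))^(N k) ≥ (3/2)^k` by the inequality of Bernoulli. The displacement is at most
`N k h μ = k μ`. -/
theorem trap_iter (l : J → ((ι → ℝ) →ᵃ[ℝ] ℝ)) {K : Set (ι → ℝ)} (hK : IsCompact K)
    (hcell : ∀ x ∈ K, cell l x ⊆ K) {L : (ι → ℝ) → ℝ} (hL : ContinuousOn L K)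
    (hconv : ∀ x ∈ K, ConvexOn ℝ (cell l x) L) {a c : ℝ} (ha : 0 < a) (hac : 2 * a ≤ c)
    {μ : ℝ} (hμ : ∀ x ∈ K, ∀ y ∈ cell l x, dist y x ≤ μ)
    {p : (ι → ℝ) → (ι → ℝ)} {h₀ : ℝ} (hh₀ : 0 < h₀) (hp : ContinuousOn p {x | x ∈ K ∧ L x ≤ c})
    (hp' : ∀ x ∈ K, L x ≤ c → p x ∈ cell l x ∧ L (p x) ≤ a ∧
        ∀ h, 0 ≤ h → h ≤ h₀ → x + h • (x - p x) ∈ cell l x) {M : ℝ} {k : ℕ}
    (hM : M ≤ (3 / 2) ^ k) :
    ∃ κ : (ι → ℝ) → (ι → ℝ), ContinuousOn κ K ∧ Set.MapsTo κ K K ∧
      (∀ x ∈ K, c ≤ L x → κ x = x) ∧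
      (∀ x ∈ K, 2 * a ≤ L x → L x ≤ L (κ x) ∧ min (M * L x) (c / 2) ≤ L (κ x)) ∧
      ∀ x ∈ K, dist (κ x) x ≤ k * μ := by
  obtain ⟨N, hN⟩ := exists_nat_gt (1 / h₀)
  have hN0 : (0 : ℝ) < N := lt_trans (by positivity) hN
  have hNh : 1 / (N : ℝ) ≤ h₀ := by
    rw [div_le_iff₀ hN0]
    rw [div_lt_iff₀ hh₀] at hN
    linarith
  obtain ⟨κ, k1, k2, k3, k4, k5⟩ := trap_small l hK hcell hL hconv ha hac hμ hp hp'
    (h := 1 / (N : ℝ)) (by positivity) hNh
  have hmaps : ∀ n : ℕ, Set.MapsTo κ^[n] K K := fun n => k2.iterate n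
  have hcont : ∀ n : ℕ, ContinuousOn κ^[n] K := by
    intro n
    induction n with
    | zero => exact continuousOn_id
    | succ n ih =>
      rw [Function.iterate_succ']
      exact k1.comp ih (hmaps n)
  have hfix : ∀ n : ℕ, ∀ x ∈ K, c ≤ L x → κ^[n] x = x := by
    intro n
    induction n with
    | zero => exact fun _ _ _ => rfl
    | succ n ih =>
      intro x hx hcx
      rw [Function.iterate_succ_apply', ih x hx hcx]
      exact k3 x hx hcx
  have hg : (1 : ℝ) ≤ 1 + 1 / (N : ℝ) / 2 := by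
    have : 0 ≤ 1 / (N : ℝ) / 2 := by positivity
    linarith
  have hmin : ∀ n : ℕ, ∀ x ∈ K, 2 * a ≤ L x → L x ≤ L (κ^[n] x) ∧
      min ((1 + 1 / (N : ℝ) / 2) ^ n * L x) (c / 2) ≤ L (κ^[n] x) := by
    intro n
    induction n with
    | zero =>
      intro x hx h2
      rw [pow_zero, one_mul]
      exact ⟨le_refl _, min_le_left _ _⟩
    | succ n ih =>
      intro x hx h2
      obtain ⟨i1, i2⟩ := ih x hx h2
      rw [Function.iterate_succ_apply']
      obtain ⟨j1, j2⟩ := k4 _ (hmaps n hx) (h2.trans i1)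
      refine ⟨i1.trans j1, le_trans ?_ j2⟩
      refine le_min ?_ (min_le_right _ _)
      calc min ((1 + 1 / (N : ℝ) / 2) ^ (n + 1) * L x) (c / 2)
          ≤ (1 + 1 / (N : ℝ) / 2) * min ((1 + 1 / (N : ℝ) / 2) ^ n * L x) (c / 2) := by
            rcases le_total ((1 + 1 / (N : ℝ) / 2) ^ n * L x) (c / 2) with h3 | h3
            · rw [min_eq_left h3]
              refine (min_le_left _ _).trans (le_of_eq ?_)
              rw [pow_succ]
              ring
            · rw [min_eq_right h3]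
              refine (min_le_right _ _).trans ?_
              exact le_mul_of_one_le_left (by linarith) hg
        _ ≤ (1 + 1 / (N : ℝ) / 2) * L (κ^[n] x) :=
            mul_le_mul_of_nonneg_left i2 (by linarith)
  have hdist : ∀ n : ℕ, ∀ x ∈ K, dist (κ^[n] x) x ≤ n * (1 / (N : ℝ) * μ) := by
    intro n
    induction n with
    | zero =>
      intro x _
      simp
    | succ n ih =>
      intro x hx
      rw [Function.iterate_succ_apply']
      have h1 := dist_triangle (κ (κ^[n] x)) (κ^[n] x) x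
      have h2 := k5 _ (hmaps n hx)
      have h3 := ih x hx
      push_cast
      linarith
  refine ⟨κ^[N * k], hcont _, hmaps _, hfix _, fun x hx h2 => ?_, fun x hx => ?_⟩
  · obtain ⟨i1, i2⟩ := hmin (N * k) x hx h2
    refine ⟨i1, le_trans ?_ i2⟩
    have hb : (3 / 2 : ℝ) ≤ (1 + 1 / (N : ℝ) / 2) ^ N := by
      have h3 := one_add_mul_le_pow (a := 1 / (N : ℝ) / 2)
        (by have : 0 ≤ 1 / (N : ℝ) / 2 := by positivity
            linarith) N
      refine le_trans (le_of_eq ?_) h3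
      field_simp
      norm_num
    have hb2 : M ≤ (1 + 1 / (N : ℝ) / 2) ^ (N * k) := by
      rw [pow_mul]
      exact hM.trans (pow_le_pow_left₀ (by norm_num) hb k)
    exact min_le_min_right _ (mul_le_mul_of_nonneg_right hb2 (by linarith))
  · have h1 := hdist (N * k) x hx
    refine h1.trans (le_of_eq ?_)
    push_cast
    field_simp

end Pool.Agent.DAE
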