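import Pool.Agent.DAE.T.TrapStep
import Pool.Agent.DAE.T.TrapIter

/-!
# Block T, part 6: the abstract trap theorem
-/

set_option autoImplicit false

namespace Pool.Agent.DAE

/-- pigeonhole: the intervals `(Λ^{-k-1}, Λ^{-k}]`, `k = 0, …, #S`, are disjoint, so one of them
contains none of the numbers `m s`. -/
lemma exists_scale {S : Type*} [Finite S] (m : S → ℝ) {Λ : ℝ} (hΛ : 1 < Λ) :
    ∃ k : ℕ, k ≤ Nat.card S ∧ ∀ s, m s ≤ Λ⁻¹ ^ (k + 1) ∨ Λ⁻¹ ^ k < m s := by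
  by_contra hcon
  push Not at hcon
  have h0 : (0 : ℝ) ≤ Λ⁻¹ := by positivity
  have h1 : Λ⁻¹ ≤ 1 := inv_le_one_of_one_le₀ hΛ.le
  choose f hf using fun k : Fin (Nat.card S + 1) => hcon k (Nat.lt_succ_iff.1 k.2)
  have hlt : ∀ i j : Fin (Nat.card S + 1), i < j → f i ≠ f j := by
    intro i j hij he
    have hi := (hf i).1
    have hj := (hf j).2
    rw [he] at hi
    have hp : Λ⁻¹ ^ (j : ℕ) ≤ Λ⁻¹ ^ ((i : ℕ) + 1) := pow_le_pow_of_le_one h0 h1 hij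
    linarith
  have hinj : Function.Injective f := by
    intro i j he
    rcases lt_trichotomy i j with h | h | h
    · exact absurd he (hlt i j h)
    · exact h
    · exact absurd he.symm (hlt j i h)
  have hc := Nat.card_le_card_of_injective f hinj
  rw [Nat.card_eq_fintype_card, Fintype.card_fin] at hc
  omega

/-- **The abstract trap theorem.** PROOF. Choose `k₀` with `M ≤ (3/2)^k₀`, take the cells of
`exists_cells` for `μ / (k₀ + 1)`, let `S` be the finite set of the cells of points of `K` and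
`N = #S`. Given `L`, let `m_C` be the minimum of `L` on the compact cell `C`, and let `k` be as in
`exists_scale`, `a = Λ⁻¹ ^ (k + 1)`, `c = Λ⁻¹ ^ k`; the hypothesis `hgap` of `trap_step` holds.
(`2 a ≤ c` because `2 ≤ Λ`.) Apply `trap_step` and `trap_iter`. -/
theorem exists_trap {ι : Type*} [Fintype ι] {α β : Type*} [Finite α] [Finite β]
    (a : α → β → ((ι → ℝ) →ᵃ[ℝ] ℝ)) {K : Set (ι → ℝ)} (hK : IsCompact K)
    (hKa : K = ⋃ i, {x | ∀ k, 0 ≤ a i k x}) {Λ M μ : ℝ} (hΛ : 2 ≤ Λ) (hμ : 0 < μ) :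
    ∃ N : ℕ, ∀ L : (ι → ℝ) → ℝ, ContinuousOn L K →
      (∀ i, ConvexOn ℝ {x | ∀ k, 0 ≤ a i k x} L) →
      ∃ k ≤ N, ∃ κ : (ι → ℝ) → (ι → ℝ), ContinuousOn κ K ∧ Set.MapsTo κ K K ∧
        (∀ x ∈ K, Λ⁻¹ ^ k ≤ L x → κ x = x) ∧
        (∀ x ∈ K, 2 * Λ⁻¹ ^ (k + 1) ≤ L x →
          L x ≤ L (κ x) ∧ min (M * L x) (Λ⁻¹ ^ k / 2) ≤ L (κ x)) ∧
        ∀ x ∈ K, dist (κ x) x ≤ μ := by
  have hΛ1 : 1 < Λ := by linarith
  have hΛ0 : 0 < Λ := by linarith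
  obtain ⟨k₀, hk₀⟩ := pow_unbounded_of_one_lt M (by norm_num : (1 : ℝ) < 3 / 2)
  have hμ' : 0 < μ / (k₀ + 1) := by positivity
  obtain ⟨q, l, hl⟩ := exists_cells a hK hKa hμ'
  have hcell : ∀ x ∈ K, cell l x ⊆ K := by
    intro x hx
    obtain ⟨i, hi⟩ := (hl x hx).1
    intro y hy
    rw [hKa]
    exact Set.mem_iUnion.2 ⟨i, hi hy⟩
  have hSfin : (cell l '' K).Finite := (finite_cells l).subset (Set.image_subset_range _ _)
  have : Finite (cell l '' K) := hSfin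
  refine ⟨Nat.card (cell l '' K), ?_⟩
  intro L hL hLc
  -- the minimum on each cell
  have hmin : ∀ C : (cell l '' K), ∃ y ∈ C.1, ∀ z ∈ C.1, L y ≤ L z := by
    rintro ⟨C, x, hx, rfl⟩
    have hcomp : IsCompact (cell l x) := hK.of_isClosed_subset (isClosed_cell l x) (hcell x hx)
    obtain ⟨y, hy, hy'⟩ := hcomp.exists_isMinOn ⟨x, mem_cell_self l x⟩
      (hL.mono (hcell x hx))
    exact ⟨y, hy, fun z hz => hy' hz⟩
  choose y hy hy' using hmin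
  obtain ⟨k, hk, hk'⟩ := exists_scale (fun C : (cell l '' K) => L (y C)) hΛ1
  have ha : 0 < Λ⁻¹ ^ (k + 1) := by positivity
  have hac : 2 * Λ⁻¹ ^ (k + 1) ≤ Λ⁻¹ ^ k := by
    have h2 : 2 * Λ⁻¹ ≤ 1 := by
      rw [mul_inv_le_iff₀ hΛ0]
      linarith
    have h3 : 0 < Λ⁻¹ ^ k := by positivity
    calc 2 * Λ⁻¹ ^ (k + 1) = (2 * Λ⁻¹) * Λ⁻¹ ^ k := by ring
      _ ≤ 1 * Λ⁻¹ ^ k := by gcongr
      _ = Λ⁻¹ ^ k := one_mul _
  have hconv : ∀ x ∈ K, ConvexOn ℝ (cell l x) L := by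
    intro x hx
    obtain ⟨i, hi⟩ := (hl x hx).1
    exact (hLc i).subset hi (convex_cell l x)
  have hgap : ∀ x ∈ K, (∃ y ∈ cell l x, L y ≤ Λ⁻¹ ^ (k + 1)) ∨
      ∀ y ∈ cell l x, Λ⁻¹ ^ k < L y := by
    intro x hx
    rcases hk' ⟨cell l x, x, hx, rfl⟩ with h | h
    · exact Or.inl ⟨_, hy ⟨cell l x, x, hx, rfl⟩, h⟩
    · exact Or.inr fun z hz => lt_of_lt_of_le h (hy' ⟨cell l x, x, hx, rfl⟩ z hz)
  obtain ⟨p, h₀, hh₀, hp, hp'⟩ := trap_step l hK hcell hL hconv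
    (by linarith : Λ⁻¹ ^ (k + 1) ≤ Λ⁻¹ ^ k) hgap
  obtain ⟨κ, h1, h2, h3, h4, h5⟩ := trap_iter l hK hcell hL hconv ha hac
    (fun x hx => (hl x hx).2) hh₀ hp hp' hk₀.le
  refine ⟨k, hk, κ, h1, h2, h3, h4, fun x hx => (h5 x hx).trans ?_⟩
  rw [mul_div_assoc', div_le_iff₀ (by positivity)]
  nlinarith

end Pool.Agent.DAE
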