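import Pool.Agent.DAE.T.Fix
import Pool.Agent.DAE.T.Func
import Pool.Agent.DAE.T.Trap

/-!
# Block T, part 9a: the map `F`
-/

set_option autoImplicit false

namespace Pool.Agent.DAE

open MvPolynomial Pool.Agent.H17Dyn

variable {d : ℕ} [NeZero d]

/-- **the map `F` and its estimate**, for a fixed functional `L` and a fixed trap `κ`.
`K₀ = deg φ`, `M = 4 K₀ / lam`, `Λ = 4 M`, `c = Λ⁻¹ ^ k`, `a = Λ⁻¹ ^ (k + 1)`, `c₁ = M a = c / 4`,
`ε ≤ a / 2`.

PROOF. `r(u) = 1 - d * max 0 (min 1 (u / c₁ - 1))`, so `r = 1` for `u ≤ c₁` and `r = -(d - 1)` for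
`u ≥ 2 c₁`. For `x ∈ K` let `h = s x` and
`y(x) = R (N (r (L h)) (nact φ h)) ∈ Sig1 g`, `F x = κ (ev D (y(x)))`; continuous `K → K`, so
there is a fixed point `x`, `h = s x` (`exists_fixed`).
(1) If `L h ≤ c₁` then `y(x) = R (degv) = degv`, `L (degv) = 1 ≥ c`, so `κ` fixes it and
`x = ev D (degv)`, `h = degv`, `L h = 1 ≤ c₁ = c / 4 ≤ 1/4`: contradiction. So `L h > c₁`.
(2) `θ = HH (act φ h) ≤ K₀` (`HH_act_le`), `L (nact φ h) = t (L h - ε) / θ ≥ (lam / K₀) (L h - ε)`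
and `L (y(x)) ≥ L (nact φ h)` (`Noise.le`, `Retr.le`, `Fnl.mono`). As `L h ≥ c₁ = M a` and
`ε ≤ a/2` and `lam ≤ K₀` (`IsDyn.pow_le` for `n = 1`) this is
`≥ 4 a - (lam / K₀) a / 2 ≥ 2 a`, so the trap gives
`L h = L (F x) ≥ min (M L (y(x))) (c / 2)` and `M L (y(x)) ≥ 4 (L h - ε) ≥ 2 L h` since
`ε ≤ a / 2 ≤ c₁ / 8 ≤ L h / 8`. As `L h > 0`, `L h ≥ 2 L h` is impossible, so `L h ≥ c / 2 = 2 c₁`.
(3) So `r (L h) = -(d-1)`, `y(x) = R (nact φ h)`, `x = κ (ev D (y(x)))` has distance at most `μ`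
from `ev D (R (nact φ h))`, and `L h ≥ L (y(x)) ≥ t (L h - ε) / θ`, so
`θ ≥ t (1 - ε / L h) ≥ lam (1 - 2 ε / c)`. -/
theorem approx_aux (hC : CompactStatement d) {N : ℝ → (Poly d → ℝ) → (Poly d → ℝ)}
    (hN : Noise d N) {g : Fin d → Poly d} {R : (Poly d → ℝ) → (Poly d → ℝ)} (hR : Retr g R)
    (p : Pieces g) {φ : Poly d ≃ₐ[ℂ] Poly d} {lam : ℝ} (hlam : IsDyn φ lam) (h1 : 1 < lam)
    {t ε : ℝ} {L : (Poly d → ℝ) → ℝ} (ht : lam < t) (hε : 0 < ε) (hL : Fnl φ t ε L)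
    {Λ M μ : ℝ} (hM : M = 4 * adeg φ / lam) (hΛ : Λ = 4 * M) {k : ℕ}
    (hεa : 2 * ε ≤ Λ⁻¹ ^ (k + 1)) {κ : (p.D → ℝ) → (p.D → ℝ)} (hκ : ContinuousOn κ p.K)
    (hκm : Set.MapsTo κ p.K p.K)
    (hκ1 : ∀ x ∈ p.K, Λ⁻¹ ^ k ≤ L (p.s x) → κ x = x)
    (hκ2 : ∀ x ∈ p.K, 2 * Λ⁻¹ ^ (k + 1) ≤ L (p.s x) →
      L (p.s x) ≤ L (p.s (κ x)) ∧ min (M * L (p.s x)) (Λ⁻¹ ^ k / 2) ≤ L (p.s (κ x)))
    (hκ3 : ∀ x ∈ p.K, dist (κ x) x ≤ μ) :
    ∃ w ∈ Sig1 g, dist (ev p.D w) (ev p.D (R (nact φ w))) ≤ μ ∧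
      lam * (1 - 2 * ε / Λ⁻¹ ^ k) ≤ HH (act φ w) := by
  have hlam0 : 0 < lam := by linarith
  have hK0 : lam ≤ (adeg φ : ℝ) := by
    have := hlam.pow_le 1
    rwa [pow_one, pow_one] at this
  have hK0' : (0 : ℝ) < adeg φ := by linarith
  have hM4 : 4 ≤ M := by
    rw [hM, le_div_iff₀ hlam0]
    linarith
  have hMlam : 4 / M = lam / adeg φ := by
    rw [hM]
    field_simp
  have hΛ0 : 0 < Λ := by rw [hΛ]; linarith
  have hΛ1 : Λ⁻¹ ≤ 1 := by
    apply inv_le_one_of_one_le₀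
    rw [hΛ]
    linarith
  set c : ℝ := Λ⁻¹ ^ k with hcdef
  set a : ℝ := Λ⁻¹ ^ (k + 1) with hadef
  have hc0 : 0 < c := pow_pos (inv_pos.2 hΛ0) _
  have ha0 : 0 < a := pow_pos (inv_pos.2 hΛ0) _
  have hc1 : c ≤ 1 := pow_le_one₀ (inv_pos.2 hΛ0).le hΛ1
  have hca : c = 4 * (M * a) := by
    have h2 : a = c * Λ⁻¹ := by rw [hadef, hcdef, pow_succ]
    have h3 : c = Λ * a := by
      rw [h2]
      field_simp
    rw [h3, hΛ]
    ring
  set c₁ : ℝ := M * a with hc₁def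
  have hc₁ : 0 < c₁ := mul_pos (by linarith) ha0
  have hac : 4 * a ≤ c₁ := mul_le_mul_of_nonneg_right hM4 ha0.le
  have hd1 : (0 : ℝ) ≤ d := Nat.cast_nonneg d
  -- the parameter of the noise
  set r : ℝ → ℝ := fun u => 1 - d * max 0 (min 1 (u / c₁ - 1)) with hrdef
  have hrc : Continuous r := by
    rw [hrdef]
    fun_prop
  have hrm : ∀ u, r u ∈ Set.Icc (-((d : ℝ) - 1)) 1 := by
    intro u
    have e1 : 0 ≤ max 0 (min 1 (u / c₁ - 1)) := le_max_left _ _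
    have e2 : max 0 (min 1 (u / c₁ - 1)) ≤ 1 := max_le zero_le_one (min_le_left _ _)
    constructor
    · show -((d : ℝ) - 1) ≤ 1 - d * max 0 (min 1 (u / c₁ - 1))
      nlinarith
    · show 1 - d * max 0 (min 1 (u / c₁ - 1)) ≤ 1
      nlinarith
  have hr1 : ∀ u, u ≤ c₁ → r u = 1 := by
    intro u hu
    have e1 : u / c₁ - 1 ≤ 0 := by
      rw [sub_nonpos, div_le_one hc₁]
      exact hu
    have e2 : max 0 (min 1 (u / c₁ - 1)) = 0 := max_eq_left ((min_le_right _ _).trans e1)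
    show 1 - d * max 0 (min 1 (u / c₁ - 1)) = 1
    rw [e2]
    ring
  have hr2 : ∀ u, 2 * c₁ ≤ u → r u = -((d : ℝ) - 1) := by
    intro u hu
    have e1 : 1 ≤ u / c₁ - 1 := by
      rw [le_sub_iff_add_le, le_div_iff₀ hc₁]
      linarith
    have e2 : max 0 (min 1 (u / c₁ - 1)) = 1 := by
      rw [min_eq_left e1]
      exact max_eq_right zero_le_one
    show 1 - d * max 0 (min 1 (u / c₁ - 1)) = _
    rw [e2]
    ring
  -- the map
  have hs : ∀ x ∈ p.K, p.s x ∈ J1 d := fun x hx => (p.s_mem hx).1.1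
  have hn : ∀ x ∈ p.K, nact φ (p.s x) ∈ J1 d := fun x hx => nact_mem_J1 φ (hs x hx)
  set z : (p.D → ℝ) → (Poly d → ℝ) := fun x => N (r (L (p.s x))) (nact φ (p.s x)) with hzdef
  have hz : ∀ x ∈ p.K, z x ∈ J1 d := fun x hx => hN.mem _ (hrm _) _ (hn x hx)
  set y : (p.D → ℝ) → (Poly d → ℝ) := fun x => R (z x) with hydef
  have hy : ∀ x ∈ p.K, y x ∈ Sig1 g := fun x hx => hR.mem _ (hz x hx)
  have hyK : ∀ x ∈ p.K, ev p.D (y x) ∈ p.K := fun x hx => ⟨y x, hy x hx, rfl⟩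
  have hsc : ContinuousOn p.s p.K := p.cont
  have hLc : ContinuousOn (fun x => L (p.s x)) p.K := hL.cont.comp hsc hs
  have hnc : ContinuousOn (fun x => nact φ (p.s x)) p.K := (continuousOn_nact φ).comp hsc hs
  have hzc : ContinuousOn z p.K := by
    have e1 : ContinuousOn (fun x => (r (L (p.s x)), nact φ (p.s x))) p.K :=
      (hrc.comp_continuousOn hLc).prodMk hnc
    exact hN.cont.comp e1 fun x hx => ⟨hrm _, hn x hx⟩
  have hyc : ContinuousOn y p.K := hR.cont.comp hzc hz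
  have heyc : ContinuousOn (fun x => ev p.D (y x)) p.K :=
    (continuous_ev p.D).comp_continuousOn hyc
  obtain ⟨x, hx, hFx⟩ := exists_fixed hC hN hR p (fun x => κ (ev p.D (y x)))
    (hκ.comp heyc hyK) fun x hx => hκm (hyK x hx)
  have hFx' : κ (ev p.D (y x)) = x := hFx
  have hsy : p.s (ev p.D (y x)) = y x := p.left_inv _ (hy x hx)
  set h : Poly d → ℝ := p.s x with hhdef
  have hhJ1 : h ∈ J1 d := hs x hx
  have hhJ : h ∈ J d := hhJ1.1
  have hxe : ev p.D h = x := (p.s_mem hx).2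
  have hdeg := hR.degv_mem
  -- step 1
  have hL1 : c₁ < L h := by
    by_contra hcon
    have e1 : r (L h) = 1 := hr1 _ (not_lt.1 hcon)
    have e2 : z x = degv d := by
      show N (r (L h)) (nact φ h) = _
      rw [e1]
      exact hN.one _ (hn x hx)
    have e3 : y x = degv d := by
      show R (z x) = _
      rw [e2]
      exact hdeg.2
    have e4 : κ (ev p.D (y x)) = ev p.D (y x) := by
      apply hκ1 _ (hyK x hx)
      rw [hsy, e3, hL.deg]
      exact hc1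
    have e5 : h = degv d := by
      rw [← e3, ← hsy, ← e4, hFx']
    rw [e5, hL.deg] at hcon
    linarith
  -- step 2
  set θ : ℝ := HH (act φ h) with hθdef
  have hθ0 : 0 < θ := HH_act_pos φ hhJ1
  have hHh : HH h = 1 := hhJ1.2
  have hθ1 : θ ≤ adeg φ := by
    have := HH_act_le φ hhJ
    rwa [hHh, mul_one] at this
  have hLn : L (nact φ h) = θ⁻¹ * (t * (L h - ε)) := by
    have e1 : L (nact φ h) = θ⁻¹ * L (act φ h) :=
      hL.smul _ (act_mem_J φ hhJ) _ (inv_nonneg.2 hθ0.le)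
    rw [e1, hL.apply_act _ hhJ, hHh, mul_one]
  have hLy : L (nact φ h) ≤ L (y x) := by
    refine hL.mono _ (hn x hx).1 _ (hy x hx).1.1 fun P => ?_
    exact (hN.le _ (hrm _) _ (hn x hx) P).trans (hR.le _ (hz x hx) P)
  have hεc : 8 * ε ≤ c₁ := by linarith
  have hLε : 0 < L h - ε := by linarith
  have hlow : 4 / M * (L h - ε) ≤ L (y x) := by
    refine le_trans ?_ hLy
    rw [hLn, hMlam, ← mul_assoc]
    refine mul_le_mul_of_nonneg_right ?_ hLε.le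
    rw [div_eq_mul_inv, mul_comm]
    exact mul_le_mul (inv_anti₀ hθ0 hθ1) ht.le hlam0.le (inv_nonneg.2 hθ0.le)
  have hM0 : 0 < M := by linarith
  have hlow2 : 4 * (L h - ε) ≤ M * L (y x) := by
    have := mul_le_mul_of_nonneg_left hlow hM0.le
    have e1 : M * (4 / M * (L h - ε)) = 4 * (L h - ε) := by
      field_simp
    linarith
  have h2a : 2 * a ≤ L (y x) := by
    refine le_trans ?_ hlow
    rw [div_mul_eq_mul_div, le_div_iff₀ hM0]
    nlinarith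
  obtain ⟨hk1, hk2⟩ := hκ2 _ (hyK x hx) (by rw [hsy]; exact h2a)
  rw [hsy, hFx', ← hhdef] at hk1 hk2
  have hLc2 : c / 2 ≤ L h := by
    rcases min_le_iff.1 hk2 with e | e
    · exfalso
      linarith
    · exact e
  -- step 3
  have e1 : r (L h) = -((d : ℝ) - 1) := hr2 _ (by linarith)
  have e2 : z x = nact φ h := by
    show N (r (L h)) (nact φ h) = _
    rw [e1]
    exact hN.id _ (hn x hx)
  have e3 : y x = R (nact φ h) := by
    show R (z x) = _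
    rw [e2]
  refine ⟨h, (p.s_mem hx).1, ?_, ?_⟩
  · have := hκ3 _ (hyK x hx)
    rw [hFx', e3] at this
    rw [hxe]
    exact this
  · have hLh : 0 < L h := hL.pos _ hhJ1
    have e4 : t * (L h - ε) ≤ θ * L h := by
      have e5 : θ⁻¹ * (t * (L h - ε)) ≤ L h := by
        rw [← hLn]
        exact hLy.trans hk1
      have e6 := mul_le_mul_of_nonneg_left e5 hθ0.le
      rwa [← mul_assoc, mul_inv_cancel₀ hθ0.ne', one_mul] at e6
    have e5 : lam * (L h - ε) ≤ θ * L h :=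
      (mul_le_mul_of_nonneg_right ht.le hLε.le).trans e4
    have e6 : L h * (1 - 2 * ε / c) ≤ L h - ε := by
      have e7 : ε ≤ L h * (2 * ε / c) := by
        rw [mul_div_assoc', le_div_iff₀ hc0]
        nlinarith
      linarith
    have e8 : lam * (1 - 2 * ε / c) * L h ≤ θ * L h := by
      refine le_trans ?_ e5
      rw [mul_assoc]
      refine mul_le_mul_of_nonneg_left ?_ hlam0.le
      rw [mul_comm]
      exact e6
    exact le_of_mul_le_mul_right e8 hLh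

end Pool.Agent.DAE
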