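import Pool.Agent.DAE.T.Cells

/-!
# Block T, part 4: the point `p(x)` of the trap
-/

set_option autoImplicit false

namespace Pool.Agent.DAE

open Set

section SignVectors

private noncomputable def fac (s : SignType) (t : ℝ) : ℝ :=
  if s = 0 then 1 else if s = 1 then min (max t 0) 1 else min (max (-t) 0) 1

private lemma fac_nonneg (s : SignType) (t : ℝ) : 0 ≤ fac s t := by
  unfold fac
  split_ifs
  · exact zero_le_one
  · exact le_min (le_max_right _ _) zero_le_one
  · exact le_min (le_max_right _ _) zero_le_one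

private lemma fac_le_one (s : SignType) (t : ℝ) : fac s t ≤ 1 := by
  unfold fac
  split_ifs
  · exact le_refl _
  · exact min_le_right _ _
  · exact min_le_right _ _

private lemma continuous_fac (s : SignType) : Continuous (fac s) := by
  unfold fac
  split_ifs
  · exact continuous_const
  · exact (continuous_id.max continuous_const).min continuous_const
  · exact (continuous_neg.max continuous_const).min continuous_const

private lemma fac_one_le {t : ℝ} (ht : 0 ≤ t) : fac 1 t ≤ t := by
  unfold fac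
  rw [if_neg (by decide), if_pos rfl, max_eq_left ht]
  exact min_le_left _ _

private lemma fac_one_eq {t : ℝ} (ht : t ≤ 0) : fac 1 t = 0 := by
  unfold fac
  rw [if_neg (by decide), if_pos rfl, max_eq_right ht]
  exact min_eq_left zero_le_one

private lemma fac_neg_le {t : ℝ} (ht : t ≤ 0) : fac (-1) t ≤ -t := by
  unfold fac
  rw [if_neg (by decide), if_neg (by decide), max_eq_left (by linarith)]
  exact min_le_left _ _

private lemma fac_neg_eq {t : ℝ} (ht : 0 ≤ t) : fac (-1) t = 0 := by
  unfold fac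
  rw [if_neg (by decide), if_neg (by decide), max_eq_right (by linarith)]
  exact min_eq_left zero_le_one

private lemma fac_sign_pos (t : ℝ) : 0 < fac (SignType.sign t) t := by
  rcases lt_trichotomy t 0 with h | h | h
  · rw [sign_neg h]
    unfold fac
    rw [if_neg (by decide), if_neg (by decide), max_eq_left (by linarith)]
    exact lt_min (by linarith) one_pos
  · rw [h, sign_zero]
    unfold fac
    rw [if_pos rfl]
    exact one_pos
  · rw [sign_pos h]
    unfold fac
    rw [if_neg (by decide), if_pos rfl, max_eq_left h.le]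
    exact lt_min h one_pos

variable {E : Type*} [AddCommGroup E] [Module ℝ E] {J : Type*} (l : J → (E →ᵃ[ℝ] ℝ))

private def scell (σ : J → SignType) : Set E :=
  {y | ∀ j, (σ j = 1 → 0 ≤ l j y) ∧ (σ j = -1 → l j y ≤ 0) ∧ (σ j = 0 → l j y = 0)}

private lemma scell_sign (x : E) : scell l (fun j => SignType.sign (l j x)) = cell l x := by
  ext y
  unfold scell cell
  simp only [mem_ofPred_eq, sign_eq_one_iff, sign_eq_neg_one_iff, sign_eq_zero_iff]

private noncomputable def lam [Fintype J] (σ : J → SignType) (x : E) : ℝ :=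
  ∏ j, fac (σ j) (l j x)

private lemma lam_nonneg [Fintype J] (σ : J → SignType) (x : E) : 0 ≤ lam l σ x :=
  Finset.prod_nonneg fun _ _ => fac_nonneg _ _

private lemma lam_le [Fintype J] (σ : J → SignType) (x : E) (j : J) :
    lam l σ x ≤ fac (σ j) (l j x) := by
  classical
  unfold lam
  rw [← Finset.mul_prod_erase _ _ (Finset.mem_univ j)]
  have h1 : ∏ i ∈ Finset.univ.erase j, fac (σ i) (l i x) ≤ 1 :=
    Finset.prod_le_one (fun i _ => fac_nonneg _ _) fun i _ => fac_le_one _ _
  exact mul_le_of_le_one_right (fac_nonneg _ _) h1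

private lemma lam_sign_pos [Fintype J] (x : E) :
    0 < lam l (fun j => SignType.sign (l j x)) x :=
  Finset.prod_pos fun _ _ => fac_sign_pos _

private lemma sub_of_lam_pos [Fintype J] {σ : J → SignType} {x : E} (h : 0 < lam l σ x) :
    scell l σ ⊆ cell l x := by
  intro y hy j
  have h1 : 0 < fac (σ j) (l j x) := h.trans_le (lam_le l σ x j)
  obtain ⟨y1, y2, y3⟩ := hy j
  have hc : σ j = 0 ∨ σ j = -1 ∨ σ j = 1 := by
    rcases σ j with _ | _ | _
    · exact Or.inl rfl
    · exact Or.inr (Or.inl rfl)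
    · exact Or.inr (Or.inr rfl)
  rcases hc with hc | hc | hc
  · have := y3 hc
    exact ⟨fun _ => this.ge, fun _ => this.le, fun _ => this⟩
  · rw [hc] at h1
    have h2 : l j x < 0 := by
      by_contra hn
      push Not at hn
      rw [fac_neg_eq hn] at h1
      exact lt_irrefl _ h1
    exact ⟨fun h3 => absurd h3 (not_lt.2 h2.le), fun _ => y2 hc, fun h3 => absurd h3 h2.ne⟩
  · rw [hc] at h1
    have h2 : 0 < l j x := by
      by_contra hn
      push Not at hn
      rw [fac_one_eq hn] at h1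
      exact lt_irrefl _ h1
    exact ⟨fun _ => y1 hc, fun h3 => absurd h3 (not_lt.2 h2.le), fun h3 => absurd h3 h2.ne'⟩

private lemma lam_mul_le [Fintype J] {σ : J → SignType} {x q : E} (hq : q ∈ scell l σ) {R : ℝ}
    (j : J) (hR : |l j q| ≤ R) :
    (0 < l j x → lam l σ x * l j q ≤ l j x * R) ∧
    (l j x < 0 → l j x * R ≤ lam l σ x * l j q) ∧ (l j x = 0 → lam l σ x * l j q = 0) := by
  obtain ⟨y1, y2, y3⟩ := hq j
  have hR0 : 0 ≤ R := (abs_nonneg _).trans hR
  have hRu : l j q ≤ R := (le_abs_self _).trans hR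
  have hRl : -R ≤ l j q := by
    have := neg_abs_le (l j q)
    linarith
  have hlam := lam_nonneg l σ x
  have hle := lam_le l σ x j
  have hc : σ j = 0 ∨ σ j = -1 ∨ σ j = 1 := by
    rcases σ j with _ | _ | _
    · exact Or.inl rfl
    · exact Or.inr (Or.inl rfl)
    · exact Or.inr (Or.inr rfl)
  rcases hc with hc | hc | hc
  · rw [y3 hc, mul_zero]
    exact ⟨fun h => mul_nonneg h.le hR0, fun h => mul_nonpos_of_nonpos_of_nonneg h.le hR0,
      fun _ => rfl⟩
  · rw [hc] at hle
    have hy := y2 hc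
    refine ⟨fun h => ?_, fun h => ?_, fun h => ?_⟩
    · rw [fac_neg_eq h.le] at hle
      rw [le_antisymm hle hlam, zero_mul]
      exact mul_nonneg h.le hR0
    · have h2 := hle.trans (fac_neg_le h.le)
      nlinarith
    · rw [fac_neg_eq h.ge] at hle
      rw [le_antisymm hle hlam, zero_mul]
  · rw [hc] at hle
    have hy := y1 hc
    refine ⟨fun h => ?_, fun h => ?_, fun h => ?_⟩
    · have h2 := hle.trans (fac_one_le h.le)
      nlinarith
    · rw [fac_one_eq h.le] at hle
      rw [le_antisymm hle hlam, zero_mul]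
      exact mul_nonpos_of_nonpos_of_nonneg h.le hR0
    · rw [fac_one_eq h.le] at hle
      rw [le_antisymm hle hlam, zero_mul]

/-- an affine function at a weighted mean -/
private lemma affine_mean {α : Type*} (t : Finset α) (f : E →ᵃ[ℝ] ℝ) (w : α → ℝ) (q : α → E)
    (hw : ∑ i ∈ t, w i ≠ 0) :
    f ((∑ i ∈ t, w i)⁻¹ • ∑ i ∈ t, w i • q i) = (∑ i ∈ t, w i)⁻¹ * ∑ i ∈ t, w i * f (q i) := by
  have hd : ∀ y, f y = f.linear y + f 0 := fun y => by
    have := congrFun f.decomp y
    simpa using this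
  rw [hd, map_smul, map_sum, smul_eq_mul]
  have h1 : ∑ i ∈ t, w i * f (q i) = ∑ i ∈ t, f.linear (w i • q i) + (∑ i ∈ t, w i) * f 0 := by
    rw [Finset.sum_mul, ← Finset.sum_add_distrib]
    refine Finset.sum_congr rfl fun i _ => ?_
    rw [hd (q i), map_smul, smul_eq_mul, mul_add]
  rw [h1, mul_add, ← mul_assoc, inv_mul_cancel₀ hw, one_mul]

end SignVectors

variable {ι : Type*} [Fintype ι] {J : Type*} [Finite J]

/-- **The core of the trap.** `K` is compact, union of closed cells, `L` is continuous on `K` and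
convex on the cells, and every cell of a point of `K` contains a point with `L ≤ a` or has
`L > c` everywhere (`a ≤ c`). Then on `{x ∈ K | L x ≤ c}` there is a continuous `p` with
`p x ∈ cell l x`, `L (p x) ≤ a`, such that the segment from `p x` to `x` can be prolonged beyond
`x` by the uniform factor `h₀` inside the cell.

PROOF. Let `Sg` be the finite set of the cells `C` of points of `K` (`finite_cells`), and let `S`
be the set of those which contain a point with `L ≤ a`; choose `q_C ∈ C` with `L (q_C) ≤ a` for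
`C ∈ S`. For each `C ∈ Sg` fix `z_C ∈ K` with `C = cell l z_C` and let `s_C j` be the sign of
`l j z_C`. Put `lam_C(x) = min_{j, s_C j ≠ 0} max (s_C j * l j x) 0` (in Lean: take the minimum
over all `j` of `max (s_C j * l j x) 0` if `s_C j ≠ 0` and of `1` otherwise, together with the
number `1`). It is continuous, and `0 < lam_C(x)` if and only if `s_C j * l j x > 0` for all `j`
with `s_C j ≠ 0`. In particular `0 < lam_C(z)` if `cell l z = C`... (use: for `z ∈ K` with cell
`C`, i.e. `cell l z = cell l z_C`, the signs of `l j z` and of `l j z_C` agree: `z ∈ cell l z_C`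
and `z_C ∈ cell l z`.) If `0 < lam_C(x)` then `C ⊆ cell l x`: let `y ∈ C`; if `l j x = 0` then
`s_C j = 0` so `l j y = 0`; if `l j x > 0` then `s_C j = 1` and `l j y ≥ 0`, or `s_C j = 0` and
`l j y = 0`; same for `< 0`.
Put `Z(x) = ∑_{C ∈ S} lam_C(x)` and `p(x) = (∑_{C ∈ S} lam_C(x) q_C) / Z(x)`. For `x ∈ K` with
`L x ≤ c` the cell of `x` is in `S` (it does not have `L > c` everywhere), so `Z(x) > 0`; by
compactness of `{x ∈ K | L x ≤ c}` there is `δ > 0` with `Z ≥ δ` on it. `p` is continuous there.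
`p(x)` is a convex combination of points of `cell l x` with `L ≤ a`, so `p x ∈ cell l x` and
`L (p x) ≤ a` (`ConvexOn.map_sum_le`).
Let `R ≥ 1` be a bound of all `|l j|` on `K` and on the `q_C` (they are in `K`), `n = #Sg`,
`h₀ = δ / (n R)`. For `j` with `l j x > 0`: `0 ≤ lam_C(x) l j (q_C) ≤ l j x * R` for every
`C ∈ S` (if `s_C j = 0` or `lam_C(x) = 0` it is `0`, otherwise `s_C j = 1` and
`lam_C(x) ≤ l j x`), so `l j (p x) ≤ n R l j x / δ`, so for `0 ≤ h ≤ h₀`
`l j (x + h (x - p x)) = (1 + h) l j x - h l j (p x) ≥ l j x * (1 + h - h n R / δ) ≥ 0`.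
Same for `l j x < 0`. If `l j x = 0` then `l j (p x) = 0`. QED -/
theorem trap_step (l : J → ((ι → ℝ) →ᵃ[ℝ] ℝ)) {K : Set (ι → ℝ)} (hK : IsCompact K)
    (hcell : ∀ x ∈ K, cell l x ⊆ K) {L : (ι → ℝ) → ℝ} (hL : ContinuousOn L K)
    (hconv : ∀ x ∈ K, ConvexOn ℝ (cell l x) L) {a c : ℝ} (hac : a ≤ c)
    (hgap : ∀ x ∈ K, (∃ y ∈ cell l x, L y ≤ a) ∨ ∀ y ∈ cell l x, c < L y) :
    ∃ (p : (ι → ℝ) → (ι → ℝ)) (h₀ : ℝ), 0 < h₀ ∧ ContinuousOn p {x | x ∈ K ∧ L x ≤ c} ∧
      ∀ x ∈ K, L x ≤ c → p x ∈ cell l x ∧ L (p x) ≤ a ∧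
        ∀ h, 0 ≤ h → h ≤ h₀ → x + h • (x - p x) ∈ cell l x := by
  classical
  cases nonempty_fintype J
  set S : (J → SignType) → Prop := fun σ => ∃ q ∈ scell l σ, L q ≤ a with hS
  have hq0 : ∀ σ, ∃ q : ι → ℝ, S σ → q ∈ scell l σ ∧ L q ≤ a := by
    intro σ
    by_cases h : S σ
    · obtain ⟨q, h1, h2⟩ := h
      exact ⟨q, fun _ => ⟨h1, h2⟩⟩
    · exact ⟨0, fun h' => absurd h' h⟩
  choose q hq using hq0
  set w : (J → SignType) → (ι → ℝ) → ℝ := fun σ x => if S σ then lam l σ x else 0 with hw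
  have hlamc : ∀ σ, Continuous (lam l σ) := by
    intro σ
    unfold lam
    refine continuous_finsetProd _ fun j _ => (continuous_fac _).comp ?_
    exact (l j).continuous_of_finiteDimensional
  have hwc : ∀ σ, Continuous (w σ) := by
    intro σ
    by_cases h : S σ
    · simp only [hw, if_pos h]
      exact hlamc σ
    · simp only [hw, if_neg h]
      exact continuous_const
  have hw0 : ∀ σ x, 0 ≤ w σ x := by
    intro σ x
    by_cases h : S σ
    · simp only [hw, if_pos h]
      exact lam_nonneg l σ x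
    · simp only [hw, if_neg h]
      exact le_refl _
  set Z : (ι → ℝ) → ℝ := fun x => ∑ σ, w σ x with hZ
  have hZc : Continuous Z := continuous_finsetSum _ fun σ _ => hwc σ
  have hZpos : ∀ x ∈ K, L x ≤ c → 0 < Z x := by
    intro x hx hxc
    have h1 : S (fun j => SignType.sign (l j x)) := by
      rcases hgap x hx with ⟨y, hy, hya⟩ | h
      · refine ⟨y, ?_, hya⟩
        rw [scell_sign]
        exact hy
      · exact absurd (h x (mem_cell_self l x)) (not_lt.2 hxc)
    have h2 : 0 < w (fun j => SignType.sign (l j x)) x := by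
      simp only [hw, if_pos h1]
      exact lam_sign_pos l x
    exact Finset.sum_pos' (fun σ _ => hw0 σ x) ⟨_, Finset.mem_univ _, h2⟩
  obtain ⟨δ, hδ, hδZ⟩ : ∃ δ : ℝ, 0 < δ ∧ ∀ x ∈ K, L x ≤ c → δ ≤ Z x := by
    have hD : IsCompact (K ∩ L ⁻¹' Iic c) :=
      hK.of_isClosed_subset (hL.preimage_isClosed_of_isClosed hK.isClosed isClosed_Iic)
        inter_subset_left
    rcases (K ∩ L ⁻¹' Iic c).eq_empty_or_nonempty with he | hne
    · refine ⟨1, one_pos, fun x hx hxc => ?_⟩
      have : x ∈ K ∩ L ⁻¹' Iic c := ⟨hx, hxc⟩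
      rw [he] at this
      exact absurd this (notMem_empty x)
    · obtain ⟨x0, hx0, hmin⟩ := hD.exists_isMinOn hne hZc.continuousOn
      exact ⟨Z x0, hZpos x0 hx0.1 hx0.2, fun x hx hxc => hmin ⟨hx, hxc⟩⟩
  obtain ⟨R, hR1, hR⟩ : ∃ R : ℝ, 1 ≤ R ∧ ∀ σ j, |l j (q σ)| ≤ R := by
    refine ⟨1 + ∑ σ, ∑ j, |l j (q σ)|, ?_, fun σ j => ?_⟩
    · have : 0 ≤ ∑ σ, ∑ j, |l j (q σ)| :=
        Finset.sum_nonneg fun σ _ => Finset.sum_nonneg fun j _ => abs_nonneg _
      linarith
    · have h1 : |l j (q σ)| ≤ ∑ j, |l j (q σ)| :=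
        Finset.single_le_sum (f := fun j => |l j (q σ)|) (fun j _ => abs_nonneg _)
          (Finset.mem_univ j)
      have h2 : ∑ j, |l j (q σ)| ≤ ∑ σ, ∑ j, |l j (q σ)| :=
        Finset.single_le_sum (f := fun σ => ∑ j, |l j (q σ)|)
          (fun σ _ => Finset.sum_nonneg fun j _ => abs_nonneg _) (Finset.mem_univ σ)
      linarith
  set N : ℝ := (Fintype.card (J → SignType) : ℝ) with hN
  have hN1 : 0 < N := by
    have : 0 < Fintype.card (J → SignType) := Fintype.card_pos
    rw [hN]
    exact_mod_cast this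
  have hNR : 0 < N * R := mul_pos hN1 (by linarith)
  have hmulx : ∀ x : ι → ℝ, ∀ j,
      (0 < l j x → ∑ σ, w σ x * l j (q σ) ≤ N * R * l j x) ∧
      (l j x < 0 → N * R * l j x ≤ ∑ σ, w σ x * l j (q σ)) ∧
      (l j x = 0 → ∑ σ, w σ x * l j (q σ) = 0) := by
    intro x j
    have hterm : ∀ σ, (0 < l j x → w σ x * l j (q σ) ≤ l j x * R) ∧
        (l j x < 0 → l j x * R ≤ w σ x * l j (q σ)) ∧ (l j x = 0 → w σ x * l j (q σ) = 0) := by
      intro σ
      by_cases h : S σ
      · simp only [hw, if_pos h]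
        exact lam_mul_le l (hq σ h).1 j (hR σ j)
      · simp only [hw, if_neg h, zero_mul]
        exact ⟨fun h => mul_nonneg h.le (by linarith),
          fun h => mul_nonpos_of_nonpos_of_nonneg h.le (by linarith), fun _ => trivial⟩
    refine ⟨fun h => ?_, fun h => ?_, fun h => ?_⟩
    · have h1 : ∑ σ, w σ x * l j (q σ) ≤ ∑ _σ : J → SignType, l j x * R :=
        Finset.sum_le_sum fun σ _ => (hterm σ).1 h
      rw [Finset.sum_const, Finset.card_univ, nsmul_eq_mul] at h1
      refine h1.trans (le_of_eq ?_)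
      rw [← hN]
      ring
    · have h1 : ∑ _σ : J → SignType, l j x * R ≤ ∑ σ, w σ x * l j (q σ) :=
        Finset.sum_le_sum fun σ _ => (hterm σ).2.1 h
      rw [Finset.sum_const, Finset.card_univ, nsmul_eq_mul] at h1
      refine le_trans (le_of_eq ?_) h1
      rw [← hN]
      ring
    · exact Finset.sum_eq_zero fun σ _ => (hterm σ).2.2 h
  refine ⟨fun x => (Z x)⁻¹ • ∑ σ, w σ x • q σ, δ / (N * R), by positivity, ?_, ?_⟩
  · refine ContinuousOn.smul (hZc.continuousOn.inv₀ fun x hx => (hZpos x hx.1 hx.2).ne') ?_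
    exact (continuous_finsetSum _ fun σ _ => (hwc σ).smul continuous_const).continuousOn
  · intro x hx hxc
    have hZx := hZpos x hx hxc
    have hmem : (Z x)⁻¹ • ∑ σ, w σ x • q σ ∈ {y ∈ cell l x | L y ≤ a} := by
      have hcv : Convex ℝ {y ∈ cell l x | L y ≤ a} := (hconv x hx).convex_le a
      have e1 : ∑ σ, w σ x • q σ = ∑ σ ∈ Finset.univ.filter (fun σ => 0 < w σ x), w σ x • q σ := by
        refine (Finset.sum_filter_of_ne fun σ _ hne => ?_).symm
        refine lt_of_le_of_ne (hw0 σ x) fun h0 => hne ?_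
        rw [← h0, zero_smul]
      have e2 : Z x = ∑ σ ∈ Finset.univ.filter (fun σ => 0 < w σ x), w σ x := by
        refine (Finset.sum_filter_of_ne fun σ _ hne => ?_).symm
        exact lt_of_le_of_ne (hw0 σ x) (Ne.symm hne)
      rw [e1, Finset.smul_sum]
      simp only [smul_smul]
      refine hcv.sum_mem (fun σ _ => mul_nonneg (inv_nonneg.2 hZx.le) (hw0 σ x)) ?_ ?_
      · rw [← Finset.mul_sum, ← e2]
        exact inv_mul_cancel₀ hZx.ne'
      · intro σ hσ
        have h1 : 0 < w σ x := (Finset.mem_filter.1 hσ).2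
        have h2 : S σ := by
          by_contra hn
          simp only [hw, if_neg hn] at h1
          exact lt_irrefl _ h1
        simp only [hw, if_pos h2] at h1
        exact ⟨sub_of_lam_pos l h1 (hq σ h2).1, (hq σ h2).2⟩
    refine ⟨hmem.1, hmem.2, fun h hh0 hh => ?_⟩
    intro j
    have hpj : l j ((Z x)⁻¹ • ∑ σ, w σ x • q σ) = (Z x)⁻¹ * ∑ σ, w σ x * l j (q σ) :=
      affine_mean Finset.univ (l j) (fun σ => w σ x) q hZx.ne'
    set P : ι → ℝ := (Z x)⁻¹ • ∑ σ, w σ x • q σ with hP
    have hlj : l j (x + h • (x - P)) = (1 + h) * l j x - h * l j P := by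
      have hd : ∀ y, l j y = (l j).linear y + l j 0 := fun y => by
        have := congrFun (l j).decomp y
        simpa using this
      rw [hd (x + h • (x - P)), hd x, hd P, map_add, map_smul, map_sub, smul_eq_mul]
      ring
    rw [hlj]
    have hδx := hδZ x hx hxc
    obtain ⟨m1, m2, m3⟩ := hmulx x j
    have hhNR : h * (N * R) ≤ δ := by
      rw [le_div_iff₀ hNR] at hh
      exact hh
    refine ⟨fun h1 => ?_, fun h1 => ?_, fun h1 => ?_⟩
    · have h2 : Z x * l j P ≤ N * R * l j x := by
        rw [hpj, ← mul_assoc, mul_inv_cancel₀ hZx.ne', one_mul]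
        exact m1 h1
      have h3 : Z x * (h * l j P) ≤ Z x * l j x := by
        calc Z x * (h * l j P) = h * (Z x * l j P) := by ring
          _ ≤ h * (N * R * l j x) := mul_le_mul_of_nonneg_left h2 hh0
          _ = h * (N * R) * l j x := by ring
          _ ≤ δ * l j x := mul_le_mul_of_nonneg_right hhNR h1.le
          _ ≤ Z x * l j x := mul_le_mul_of_nonneg_right hδx h1.le
      have h4 := le_of_mul_le_mul_left h3 hZx
      nlinarith [mul_nonneg hh0 h1.le]
    · have h2 : N * R * l j x ≤ Z x * l j P := by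
        rw [hpj, ← mul_assoc, mul_inv_cancel₀ hZx.ne', one_mul]
        exact m2 h1
      have h3 : Z x * l j x ≤ Z x * (h * l j P) := by
        calc Z x * l j x ≤ δ * l j x := mul_le_mul_of_nonpos_right hδx h1.le
          _ ≤ h * (N * R) * l j x := mul_le_mul_of_nonpos_right hhNR h1.le
          _ = h * (N * R * l j x) := by ring
          _ ≤ h * (Z x * l j P) := mul_le_mul_of_nonneg_left h2 hh0
          _ = Z x * (h * l j P) := by ring
      have h4 := le_of_mul_le_mul_left h3 hZx
      nlinarith [mul_nonneg hh0 (neg_nonneg.2 h1.le)]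
    · have h2 : l j P = 0 := by
        rw [hpj, m3 h1, mul_zero]
      rw [h1, h2, mul_zero, mul_zero, sub_zero]

end Pool.Agent.DAE
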